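import Pool.Agent.H55.AB.RelPlace

/-!
# FD version 2, module RelFin: the relative theorem for solutions in `K`

`F ⊆ K` number fields, `w` a prime of `F` above `p`; `goodRel F K w a b c` is the sum of the local degrees
`e(v|w) f(v|w)` of the primes `v` of `K` above `w` at which `a, b, c` have the same valuation.
-/

open NumberField Polynomial IsDedekindDomain H9FC H9AB H85FD

namespace H55AB

/-- `a, b, c` have the same valuation at `v` -/
def EqAt {K : Type*} [Field K] [NumberField K] (v : HeightOneSpectrum (𝓞 K)) (a b c : K) : Prop :=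
  v.valuation K a = v.valuation K b ∧ v.valuation K b = v.valuation K c

/-- moreover `a² + ab + b²` has a larger valuation than `a²` -/
def CubAt {K : Type*} [Field K] [NumberField K] (v : HeightOneSpectrum (𝓞 K)) (a b c : K) : Prop :=
  EqAt v a b c ∧ v.valuation K (a ^ 2 + a * b + b ^ 2) < v.valuation K (a ^ 2)

/-- the sum of the local degrees over `w` of the good primes above `w` -/
noncomputable def goodRel (F : Type*) [Field F] [NumberField F] (K : Type*) [Field K] [NumberField K]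
    [Algebra F K] (w : HeightOneSpectrum (𝓞 F)) (a b c : K) : ℕ :=
  ∑ᶠ v ∈ {v : HeightOneSpectrum (𝓞 K) | v.asIdeal.under (𝓞 F) = w.asIdeal ∧ EqAt v a b c},
    v.asIdeal.ramificationIdx (𝓞 F) * v.asIdeal.inertiaDeg (𝓞 F)

/-- the symmetry for all the solutions -/
def SymFK (F : Type*) [Field F] [NumberField F] (K : Type*) [Field K] [NumberField K]
    [Algebra F K] (p : ℕ) [Fact p.Prime] : Prop :=
  ∀ a b c : 𝓞 K, FSol K p a b c → CopAt K p a b c → ∀ w : 𝓞 F →+* AlgebraicClosure (ZMod p),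
    SymP ((nfR F K a b).map w)

section

variable {F : Type*} [Field F] [NumberField F] {K : Type*} [Field K] [NumberField K] [Algebra F K]
  {p : ℕ} [Fact p.Prime] {Ω : Type*} [Field Ω] [IsAlgClosed Ω] [CharP Ω p]

/-- a prime above `w` is above `p` -/
theorem p_mem_of_under {q : Ideal (𝓞 F)} {P : Ideal (𝓞 K)} (h : P.under (𝓞 F) = q)
    (hq : (p : 𝓞 F) ∈ q) : (p : 𝓞 K) ∈ P := by
  rw [← h, Ideal.under, Ideal.mem_comap, map_natCast] at hq
  exact hq

theorem goodRel_eq {w : HeightOneSpectrum (𝓞 F)} (hw : (p : 𝓞 F) ∈ w.asIdeal) {w' : 𝓞 F →+* Ω}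
    (hker : RingHom.ker w' = w.asIdeal) {ψ : Fin (Module.finrank F K) → (𝓞 K →+* Ω)}
    (hψ : RelFam w' ψ) {a b c : K} {a' b' c' : 𝓞 K} (h : FSol K p a' b' c')
    (hall : ∀ v : HeightOneSpectrum (𝓞 K), (p : 𝓞 K) ∈ v.asIdeal →
        ((v.valuation K a = v.valuation K b ∧ v.valuation K b = v.valuation K c) ↔
          (a' ∉ v.asIdeal ∧ b' ∉ v.asIdeal ∧ c' ∉ v.asIdeal))) :
    goodRel F K w a b c = Nat.card (GI ψ a' b') := by
  classical
  have hne : ∀ i : Fin (Module.finrank F K), RingHom.ker (ψ i) ≠ ⊥ := fun i =>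
    (H52FD.prime_data (p := p) _ (RingHom.ker_isPrime (ψ i)) (H52FD.p_mem_ker _)).1
  let κ : GI ψ a' b' → HeightOneSpectrum (𝓞 K) := fun i =>
    ⟨RingHom.ker (ψ i.1), RingHom.ker_isPrime _, hne i.1⟩
  have hκ : ∀ i, (κ i).asIdeal = RingHom.ker (ψ i.1) := fun i => rfl
  have hcard : ∀ v : HeightOneSpectrum (𝓞 K), v.asIdeal.under (𝓞 F) = w.asIdeal →
      Nat.card {i // RingHom.ker (ψ i) = v.asIdeal}
        = v.asIdeal.ramificationIdx (𝓞 F) * v.asIdeal.inertiaDeg (𝓞 F) := by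
    intro v hv
    refine card_ker_rel F K p w' ψ hψ.form v.asIdeal v.isPrime ?_
    rw [hker]
    exact hv
  have hpos : ∀ v : HeightOneSpectrum (𝓞 K),
      0 < v.asIdeal.ramificationIdx (𝓞 F) * v.asIdeal.inertiaDeg (𝓞 F) := by
    intro v
    have := v.isPrime
    exact Nat.mul_pos (Ideal.ramificationIdx_pos v.asIdeal (𝓞 F))
      (Ideal.inertiaDeg_pos v.asIdeal (𝓞 F))
  set S : Set (HeightOneSpectrum (𝓞 K)) :=
    {v : HeightOneSpectrum (𝓞 K) | v.asIdeal.under (𝓞 F) = w.asIdeal ∧ EqAt v a b c} with hS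
  set T : Finset (HeightOneSpectrum (𝓞 K)) := Finset.univ.image κ with hT
  have hST : S = ↑T := by
    ext v
    rw [Finset.mem_coe, hT, Finset.mem_image]
    constructor
    · rintro ⟨h1, h2⟩
      have h3 : (p : 𝓞 K) ∈ v.asIdeal := p_mem_of_under h1 hw
      have h4 := (hall v h3).1 h2
      have h5 : 0 < Nat.card {i // RingHom.ker (ψ i) = v.asIdeal} := by
        rw [hcard v h1]
        exact hpos v
      obtain ⟨⟨i, hi⟩⟩ := (Nat.card_pos_iff.1 h5).1
      refine ⟨⟨i, (good_iff h i).2 (by rw [hi]; exact h4)⟩, Finset.mem_univ _, ?_⟩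
      exact HeightOneSpectrum.ext hi
    · rintro ⟨i, -, rfl⟩
      refine ⟨?_, (hall (κ i) (H52FD.p_mem_ker (ψ i.1))).2 ((good_iff h i.1).1 i.2)⟩
      rw [hκ, under_ker hψ i.1, hker]
  unfold goodRel
  rw [← hS, hST, finsum_mem_coe_finset, Nat.card_eq_fintype_card, ← Finset.card_univ,
    Finset.card_eq_sum_card_image κ Finset.univ]
  refine Finset.sum_congr rfl fun v hv => ?_
  rw [← Finset.mem_coe, ← hST] at hv
  rw [← hcard v hv.1, ← Fintype.card_subtype, ← Nat.card_eq_fintype_card]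
  have h4 := (hall v (p_mem_of_under hv.1 hw)).1 hv.2
  refine Nat.card_congr ⟨fun i => ⟨⟨i.1, (good_iff h i.1).2 (by rw [i.2]; exact h4)⟩, ?_⟩,
    fun i => ⟨i.1.1, ?_⟩, fun i => rfl, fun i => rfl⟩
  · exact HeightOneSpectrum.ext i.2
  · have := congrArg HeightOneSpectrum.asIdeal i.2
    exact this

/-- scaling and the cubic condition -/
theorem cub_iff {l a b : K} {a' b' : 𝓞 K} (hl : l ≠ 0) (ea : (a' : K) = l * a)
    (eb : (b' : K) = l * b) {v : HeightOneSpectrum (𝓞 K)} (ha : a' ∉ v.asIdeal)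
    (hcub : a' ^ 2 + a' * b' + b' ^ 2 ∈ v.asIdeal) :
    v.valuation K (a ^ 2 + a * b + b ^ 2) < v.valuation K (a ^ 2) := by
  have h1 : v.valuation K (l ^ 2 * (a ^ 2 + a * b + b ^ 2)) < 1 := by
    have h2 : l ^ 2 * (a ^ 2 + a * b + b ^ 2) = ((a' ^ 2 + a' * b' + b' ^ 2 : 𝓞 K) : K) := by
      simp only [map_add, map_mul, map_pow, ea, eb]
      ring
    rw [h2]
    exact (HeightOneSpectrum.valuation_lt_one_iff_mem v _).2 hcub
  have h3 : v.valuation K (l ^ 2 * a ^ 2) = 1 := by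
    have h4 : l ^ 2 * a ^ 2 = ((a' ^ 2 : 𝓞 K) : K) := by
      simp only [map_pow, ea]
      ring
    rw [h4]
    have h5 : a' ^ 2 ∉ v.asIdeal := fun h => ha (v.isPrime.mem_of_pow_mem 2 h)
    have h6 := v.valuation_le_one (K := K) (a' ^ 2)
    refine le_antisymm h6 (not_lt.1 fun h7 => h5 ?_)
    exact (HeightOneSpectrum.valuation_lt_one_iff_mem v _).1 h7
  rw [map_mul] at h1 h3
  have h4 : v.valuation K (l ^ 2) ≠ 0 := by
    rw [(v.valuation K).ne_zero_iff]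
    exact pow_ne_zero 2 hl
  rw [← h3] at h1
  exact lt_of_mul_lt_mul_left' h1

end

/-- **The relative theorem**, from the symmetry. -/
theorem rel_main (F : Type*) [Field F] [NumberField F] (K : Type*) [Field K] [NumberField K]
    [Algebra F K] (p : ℕ) [Fact p.Prime] (hp5 : 5 ≤ p) (hd : Module.finrank ℚ K < p)
    (hS : SymFK F K p) (a b c : K) (ha : a ≠ 0) (hb : b ≠ 0) (hc : c ≠ 0)
    (h : a ^ p + b ^ p + c ^ p = 0) (w : HeightOneSpectrum (𝓞 F)) (hw : (p : 𝓞 F) ∈ w.asIdeal) :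
    (Odd (goodRel F K w a b c) → p ^ 2 ∣ 2 ^ (p - 1) - 1) ∧
    (¬ 3 ∣ goodRel F K w a b c → ∃ v : HeightOneSpectrum (𝓞 K),
      v.asIdeal.under (𝓞 F) = w.asIdeal ∧ CubAt v a b c ∧ Nat.card (𝓞 K ⧸ v.asIdeal) % 3 = 1 ∧
      (Nat.card (𝓞 F ⧸ w.asIdeal) % 3 = 1 → ∃ v' : HeightOneSpectrum (𝓞 K), v' ≠ v ∧
        v'.asIdeal.under (𝓞 F) = w.asIdeal ∧ CubAt v' a b c)) ∧
    (∀ v : HeightOneSpectrum (𝓞 K), v.asIdeal.under (𝓞 F) = w.asIdeal → EqAt v a b c →
      goodRel F K w a b c <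
        2 * (v.asIdeal.ramificationIdx (𝓞 F) * v.asIdeal.inertiaDeg (𝓞 F)) →
      Nat.card (𝓞 F ⧸ w.asIdeal) % 3 = 2 ∧ Even (v.asIdeal.inertiaDeg (𝓞 F)) ∧ CubAt v a b c) := by
  obtain ⟨l, a', b', c', hl, ea, eb, ec, hF, hcp, hall⟩ := H3AB.scale_mixed ha hb hc h
  obtain ⟨w', hker⟩ := H3AB.exists_hom_ker p (AlgebraicClosure (ZMod p)) w.asIdeal w.isPrime hw
  obtain ⟨ψ, hψ⟩ := exists_rel F K (AlgebraicClosure (ZMod p)) w'
  have hcard := goodRel_eq hw hker hψ hF hall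
  have hsym := hS a' b' c' hF hcp w'
  have hne : ∀ P : Ideal (𝓞 K), P.IsPrime → P.under (𝓞 F) = w.asIdeal → P ≠ ⊥ :=
    fun P hP hPw => (H52FD.prime_data (p := p) P hP (p_mem_of_under hPw hw)).1
  rw [hcard]
  refine ⟨fun hodd => rel_wief hψ (by omega) hd hF hcp hsym hodd, fun h3 => ?_, ?_⟩
  · obtain ⟨P, hP, hPw, h1, h2, h3', h4, h5, h6⟩ := place_root hψ (by omega) hF hcp hsym h3
    rw [hker] at hPw h6
    have hv := p_mem_of_under (p := p) hPw hw
    refine ⟨⟨P, hP, hne P hP hPw⟩, hPw, ⟨(hall ⟨P, hP, hne P hP hPw⟩ hv).2 ⟨h1, h2, h3'⟩,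
      cub_iff hl ea eb h1 h4⟩, h5, fun hq => ?_⟩
    obtain ⟨P', hP', hne', hPw', g1, g2, g3, g4⟩ := h6 hq
    have hv' := p_mem_of_under (p := p) hPw' hw
    refine ⟨⟨P', hP', hne P' hP' hPw'⟩, fun heq => hne' ?_, hPw',
      ⟨(hall ⟨P', hP', hne P' hP' hPw'⟩ hv').2 ⟨g1, g2, g3⟩, cub_iff hl ea eb g1 g4⟩⟩
    exact congrArg HeightOneSpectrum.asIdeal heq
  · intro v hv he hbig
    have hpv := p_mem_of_under (p := p) hv hw
    obtain ⟨h1, h2, h3⟩ := (hall v hpv).1 he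
    have hc2 : Nat.card {i // RingHom.ker (ψ i) = v.asIdeal}
        = v.asIdeal.ramificationIdx (𝓞 F) * v.asIdeal.inertiaDeg (𝓞 F) := by
      refine card_ker_rel F K p w' ψ hψ.form v.asIdeal v.isPrime ?_
      rw [hker]
      exact hv
    rw [← hc2] at hbig
    obtain ⟨g1, g2, g3⟩ := place_big hψ hp5 hF hcp hsym v.asIdeal h1 h2 h3 hbig
    rw [hker] at g1
    exact ⟨g1, g2, he, cub_iff hl ea eb h1 g3⟩

end H55AB
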