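import Pool.Agent.H55.AB.RelPlace

/-!
# FD version 2, module RelRot: rotation stable families

For complex abelian `F` only the invariance of the root multiplicities under `x ↦ 1/(1 - x)` is left (in
the first case).  If `3` does not divide the number of the good members, there is a root of `X² - X + 1`.
-/

open NumberField Polynomial IsDedekindDomain H9FC H9AB H85FD

namespace H55AB

/-- the root multiplicities outside `0, 1` are invariant under `1/(1 - x)` -/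
def RotP {Ω : Type*} [Field Ω] (Q : Polynomial Ω) : Prop :=
  ∀ x : Ω, x ≠ 0 → x ≠ 1 → rootMultiplicity (1 - x)⁻¹ Q = rootMultiplicity x Q

theorem SymP.rotP {Ω : Type*} [Field Ω] {Q : Polynomial Ω} (h : SymP Q) : RotP Q := by
  intro x h0 h1
  have h2 : 1 - x ≠ 0 := fun h => h1 (sub_eq_zero.1 h).symm
  have h3 : 1 - x ≠ 1 := fun h => h0 (by linear_combination -h)
  rw [(h (1 - x) h2 h3).1, (h x h0 h1).2]

open Classical in
/-- a rotation stable family -/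
theorem rot_root {Ω : Type*} [Field Ω] {ι : Type*} [Fintype ι] (A B : ι → Ω)
    (h0 : ∀ i, A i ≠ 0 ∨ B i ≠ 0) (hrot : RotP (∏ i, (C (A i) + X * C (B i))))
    (h3 : ¬ 3 ∣ Nat.card {i // Good A B i}) :
    ∃ i : {i // Good A B i}, (- B i.1 / A i.1) ^ 2 - (- B i.1 / A i.1) + 1 = 0 := by
  set T := (fun i : {i // Good A B i} => - B i.1 / A i.1) with hT
  have hT0 : ∀ v, T v ≠ 0 := fun v => div_ne_zero (neg_ne_zero.2 v.2.2.1) v.2.1
  have hT1 : ∀ v, T v ≠ 1 := by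
    intro v h
    apply v.2.2.2
    have h1 := (div_eq_one_iff_eq v.2.1).1 h
    rw [← h1]
    ring
  have hm : ∀ t : Ω, t ≠ 0 → t ≠ 1 → H85FD.mul T t
      = rootMultiplicity t⁻¹ (∏ i, (C (A i) + X * C (B i))) :=
    fun t h1 h2 => mul_eq_root A B h0 t h1 h2
  have e1 : ∀ t : Ω, t ≠ 0 → t ≠ 1 → H85FD.mul T (1 - t⁻¹) = H85FD.mul T t := by
    intro t ht0 ht1
    have h1 : t⁻¹ ≠ 0 := inv_ne_zero ht0
    have h2 : t⁻¹ ≠ 1 := by rwa [Ne, inv_eq_one]
    have h3 : 1 - t⁻¹ ≠ 0 := fun h => h2 (sub_eq_zero.1 h).symm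
    have h4 : 1 - t⁻¹ ≠ 1 := fun h => h1 (by linear_combination -h)
    rw [hm _ h3 h4, hm t ht0 ht1]
    exact hrot t⁻¹ h1 h2
  by_contra hne
  push Not at hne
  apply h3
  rw [Nat.card_eq_fintype_card, ← sum_mul T]
  refine three_dvd_sum _ (H85FD.mul T) (fun x => 1 - x⁻¹) ?_ ?_ ?_ ?_
  · intro x hx
    obtain ⟨v, -, rfl⟩ := Finset.mem_image.mp hx
    have h5 : 0 < H85FD.mul T (1 - (T v)⁻¹) := by
      rw [e1 _ (hT0 v) (hT1 v)]
      exact (mul_pos_iff T _).2 ⟨v, rfl⟩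
    obtain ⟨u, hu⟩ := (mul_pos_iff T _).1 h5
    exact Finset.mem_image.mpr ⟨u, Finset.mem_univ _, hu⟩
  · intro x hx
    obtain ⟨v, -, rfl⟩ := Finset.mem_image.mp hx
    have a := hT0 v
    have b : T v - 1 ≠ 0 := sub_ne_zero.mpr (hT1 v)
    have e1 : 1 - (T v)⁻¹ = (T v - 1) / T v := by field_simp
    have e2 : 1 - (1 - (T v)⁻¹)⁻¹ = -1 / (T v - 1) := by
      rw [e1]
      field_simp
      ring
    show 1 - (1 - (1 - (T v)⁻¹)⁻¹)⁻¹ = T v
    rw [e2]
    field_simp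
    ring
  · intro x hx he
    obtain ⟨v, -, rfl⟩ := Finset.mem_image.mp hx
    have a := hT0 v
    apply hne v
    have hv' : 1 - (T v)⁻¹ = T v := he
    have e1 : 1 - (T v)⁻¹ = (T v - 1) / T v := by field_simp
    rw [e1, div_eq_iff a] at hv'
    show (T v) ^ 2 - T v + 1 = 0
    linear_combination -hv'
  · intro x hx
    obtain ⟨v, -, rfl⟩ := Finset.mem_image.mp hx
    exact e1 _ (hT0 v) (hT1 v)

section

variable {F : Type*} [Field F] [NumberField F] {K : Type*} [Field K] [NumberField K] [Algebra F K]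
  {p : ℕ} [Fact p.Prime] {Ω : Type*} [Field Ω] [CharP Ω p]

/-- rotation stability at the places -/
theorem place_rot {w : 𝓞 F →+* Ω} {ψ : Fin (Module.finrank F K) → (𝓞 K →+* Ω)} (hψ : RelFam w ψ)
    (hp3 : p ≠ 3) {a b c : 𝓞 K} (h : FSol K p a b c) (hcp : CopAt K p a b c)
    (hS : RotP ((nfR F K a b).map w)) (h3 : ¬ 3 ∣ Nat.card (GI ψ a b)) :
    ∃ P : Ideal (𝓞 K), P.IsPrime ∧ P.under (𝓞 F) = RingHom.ker w ∧ a ∉ P ∧ b ∉ P ∧ c ∉ P ∧
      a ^ 2 + a * b + b ^ 2 ∈ P ∧ Nat.card (𝓞 K ⧸ P) % 3 = 1 := by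
  rw [hψ.form a b] at hS
  obtain ⟨i, hi⟩ := rot_root (fun i => ψ i a) (fun i => ψ i b) (fun i => by
    by_contra hcon
    push Not at hcon
    exact (cop_hom h hcp (ψ i)).1 hcon) hS h3
  obtain ⟨a1, a2, a3⟩ := (good_iff h i.1).1 i.2
  exact ⟨RingHom.ker (ψ i.1), RingHom.ker_isPrime _, under_ker hψ i.1, a1, a2, a3,
    cubic_of_root i hi, resid_mod hp3 (ψ i.1) a b i.2.1 hi⟩

end

end H55AB
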