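import Pool.Agent.H55.AB.RelFin
import Pool.Agent.H55.AB.RelRot
import Pool.Agent.H72.AB.Master

/-!
# FD version 2, module RelAll: the relative theorems

* `rel_real`: `F` totally real in `ℚ(ζ_f)`, `[K:F] ≤ d`, `p` outside a null set depending on `f, d`: for
  every solution in `K` and every prime `w` of `F` above `p` the conclusions of `rel_main`.
* `rel_first`: `F` any subfield of `ℚ(ζ_f)`, the first case, `3 ∤ [K:F]`.
-/

open NumberField Polynomial IsDedekindDomain H9FC H9AB H85FD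

namespace H55AB

universe u v

/-- the conclusions for one prime `w` of `F` -/
def RelC (F : Type*) [Field F] [NumberField F] (K : Type*) [Field K] [NumberField K]
    [Algebra F K] (p : ℕ) (a b c : K) (w : HeightOneSpectrum (𝓞 F)) : Prop :=
  (Odd (goodRel F K w a b c) → p ^ 2 ∣ 2 ^ (p - 1) - 1) ∧
    (¬ 3 ∣ goodRel F K w a b c → ∃ v : HeightOneSpectrum (𝓞 K),
      v.asIdeal.under (𝓞 F) = w.asIdeal ∧ CubAt v a b c ∧ Nat.card (𝓞 K ⧸ v.asIdeal) % 3 = 1 ∧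
      (Nat.card (𝓞 F ⧸ w.asIdeal) % 3 = 1 → ∃ v' : HeightOneSpectrum (𝓞 K), v' ≠ v ∧
        v'.asIdeal.under (𝓞 F) = w.asIdeal ∧ CubAt v' a b c)) ∧
    (∀ v : HeightOneSpectrum (𝓞 K), v.asIdeal.under (𝓞 F) = w.asIdeal → EqAt v a b c →
      goodRel F K w a b c <
        2 * (v.asIdeal.ramificationIdx (𝓞 F) * v.asIdeal.inertiaDeg (𝓞 F)) →
      Nat.card (𝓞 F ⧸ w.asIdeal) % 3 = 2 ∧ Even (v.asIdeal.inertiaDeg (𝓞 F)) ∧ CubAt v a b c)

/-- the degree of a subfield of a cyclotomic field -/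
theorem finrank_le (f : ℕ) [NeZero f] (F : Type*) [Field F] [NumberField F]
    (h : Nonempty (F →+* CyclotomicField f ℚ)) (K : Type*) [Field K] [NumberField K] [Algebra F K]
    (d : ℕ) (hd : Module.finrank F K ≤ d) : Module.finrank ℚ K ≤ f * d := by
  obtain ⟨ι⟩ := h
  have hfq : NeZero ((f : ℕ) : ℚ) := ⟨Nat.cast_ne_zero.2 (NeZero.ne f)⟩
  have hcyc : IsCyclotomicExtension {f} ℚ (CyclotomicField f ℚ) :=
    CyclotomicField.isCyclotomicExtension f ℚ
  have h1 : Module.finrank ℚ F ≤ f := by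
    have h2 : Module.finrank ℚ F ≤ Module.finrank ℚ (CyclotomicField f ℚ) :=
      LinearMap.finrank_le_finrank_of_injective (f := ι.toRatAlgHom.toLinearMap) ι.injective
    have h3 : Module.finrank ℚ (CyclotomicField f ℚ) = f.totient :=
      IsCyclotomicExtension.Rat.finrank f (CyclotomicField f ℚ)
    rw [h3] at h2
    exact h2.trans (Nat.totient_le f)
  have hT : IsScalarTower ℚ F K := IsScalarTower.of_algebraMap_eq' (Subsingleton.elim _ _)
  rw [← Module.finrank_mul_finrank ℚ F K]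
  exact Nat.mul_le_mul h1 hd

/-- **Relative theorem**, `F` totally real. -/
theorem rel_real (f : ℕ) (hf : 2 ≤ f) (d : ℕ) : ∃ B : ℕ → Prop, Pool.Agent.H71.FD.Null B ∧
    ∀ p : ℕ, p.Prime → ¬ B p → 5 ≤ p ∧ ∀ (F : Type u) (K : Type v) [Field F] [NumberField F] [Field K]
      [NumberField K] [Algebra F K], Nonempty (F →+* CyclotomicField f ℚ) →
      (∀ φ : F →+* ℂ, (starRingEnd ℂ).comp φ = φ) → Module.finrank F K ≤ d →
      ∀ a b c : K, a ≠ 0 → b ≠ 0 → c ≠ 0 → a ^ p + b ^ p + c ^ p = 0 →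
      ∀ w : HeightOneSpectrum (𝓞 F), (p : 𝓞 F) ∈ w.asIdeal → RelC F K p a b c w := by
  obtain ⟨B, hB, h⟩ := H72AB.master_real.{u, v} f hf d
  have : NeZero f := ⟨by omega⟩
  refine ⟨fun p => B p ∨ p ≤ max 4 (f * d), hB.or (Pool.Agent.H71.FD.Null_of_bounded _ fun _ _ h => h),
    fun p hp hBp => ?_⟩
  push Not at hBp
  obtain ⟨hB1, hB2⟩ := hBp
  have h4 : 5 ≤ p := by
    have := lt_of_le_of_lt (le_max_left 4 (f * d)) hB2
    omega
  refine ⟨h4, fun F K _ _ _ _ _ hF hreal hd a b c ha hb hc hsol w hw => ?_⟩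
  have hfact : Fact p.Prime := ⟨hp⟩
  have hdim : Module.finrank ℚ K < p :=
    (finrank_le f F hF K d hd).trans_lt (lt_of_le_of_lt (le_max_right 4 (f * d)) hB2)
  refine rel_main F K p h4 hdim ?_ a b c ha hb hc hsol w hw
  intro a' b' c' hF' hcp w' x h0 h1
  obtain ⟨e1, e2⟩ := h p hp hB1 F K hF hreal hd a' b' c' hF' hcp (AlgebraicClosure (ZMod p)) w' x h0 h1
  exact ⟨e1.symm, e2.symm⟩

/-- **Relative theorem**, `F` arbitrary, first case: a root of `X² - X + 1` over every `w`. -/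
theorem rel_first (f : ℕ) (hf : 2 ≤ f) (d : ℕ) : ∃ B : ℕ → Prop, Pool.Agent.H71.FD.Null B ∧
    ∀ p : ℕ, p.Prime → ¬ B p → 5 ≤ p ∧ ∀ (F : Type u) (K : Type v) [Field F] [NumberField F] [Field K]
      [NumberField K] [Algebra F K], Nonempty (F →+* CyclotomicField f ℚ) →
      ∀ j : F →+* F, (∀ φ : F →+* ℂ, ∀ x, φ (j x) = (starRingEnd ℂ) (φ x)) →
      Module.finrank F K ≤ d → ¬ 3 ∣ Module.finrank F K →
      ∀ a b c : K, a ≠ 0 → b ≠ 0 → c ≠ 0 → a ^ p + b ^ p + c ^ p = 0 →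
      (∀ v : HeightOneSpectrum (𝓞 K), (p : 𝓞 K) ∈ v.asIdeal → EqAt v a b c) →
      ∀ w : HeightOneSpectrum (𝓞 F), (p : 𝓞 F) ∈ w.asIdeal → ∃ v : HeightOneSpectrum (𝓞 K),
        v.asIdeal.under (𝓞 F) = w.asIdeal ∧ CubAt v a b c ∧
          Nat.card (𝓞 K ⧸ v.asIdeal) % 3 = 1 := by
  obtain ⟨B, hB, h⟩ := H72AB.master_first.{u, v} f hf d
  have : NeZero f := ⟨by omega⟩
  refine ⟨fun p => B p ∨ p ≤ 4, hB.or (Pool.Agent.H71.FD.Null_of_bounded _ fun _ _ h => h),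
    fun p hp hBp => ?_⟩
  push Not at hBp
  obtain ⟨hB1, hB2⟩ := hBp
  refine ⟨by omega, fun F K _ _ _ _ _ hF j hj hd h3 a b c ha hb hc hsol hgood w hw => ?_⟩
  have hfact : Fact p.Prime := ⟨hp⟩
  obtain ⟨l, a', b', c', hl, ea, eb, ec, hF', hcp, hall⟩ := H3AB.scale_mixed ha hb hc hsol
  obtain ⟨w', hker⟩ := H3AB.exists_hom_ker p (AlgebraicClosure (ZMod p)) w.asIdeal w.isPrime hw
  obtain ⟨ψ, hψ⟩ := exists_rel F K (AlgebraicClosure (ZMod p)) w'
  have hC : ∀ P : Ideal (𝓞 K), P.IsPrime → (p : 𝓞 K) ∈ P → a' ∉ P ∧ b' ∉ P ∧ c' ∉ P := by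
    intro P hP hpP
    have hne := (H52FD.prime_data (p := p) P hP hpP).1
    exact (hall ⟨P, hP, hne⟩ hpP).1 (hgood ⟨P, hP, hne⟩ hpP)
  have hrot : RotP ((nfR F K a' b').map w') := by
    intro x h0 h1
    have g0 : 1 - x ≠ 0 := fun h => h1 (sub_eq_zero.1 h).symm
    have g1 : 1 - x ≠ 1 := fun h => h0 (by linear_combination -h)
    obtain ⟨e1, e2⟩ := h p hp hB1 F K hF j hj hd a' b' c' hF' hC (AlgebraicClosure (ZMod p)) w'
      (1 - x) g0 g1
    rw [sub_sub_cancel] at e2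
    exact e1.symm.trans e2
  have hall' : ∀ i, Good (fun i => ψ i a') (fun i => ψ i b') i := fun i =>
    (good_iff hF' i).2 (hC _ (RingHom.ker_isPrime _) (H52FD.p_mem_ker (ψ i)))
  have hcard : Nat.card (GI ψ a' b') = Module.finrank F K := by
    rw [← Nat.card_fin (Module.finrank F K)]
    exact Nat.card_congr (Equiv.subtypeUnivEquiv hall')
  obtain ⟨P, hP, hPw, h1, h2, h3', h4, h5⟩ := place_rot hψ (by omega) hF' hcp hrot (by rwa [hcard])
  rw [hker] at hPw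
  have hpP := p_mem_of_under (p := p) hPw hw
  have hne := (H52FD.prime_data (p := p) P hP hpP).1
  exact ⟨⟨P, hP, hne⟩, hPw, ⟨(hall ⟨P, hP, hne⟩ hpP).2 ⟨h1, h2, h3'⟩, cub_iff hl ea eb h1 h4⟩, h5⟩

/-- the sum of the local degrees over `w` if all the primes above `w` are good -/
theorem goodRel_all (F : Type*) [Field F] [NumberField F] (K : Type*) [Field K] [NumberField K]
    [Algebra F K] (p : ℕ) [Fact p.Prime] (a b c : K) (ha : a ≠ 0) (hb : b ≠ 0) (hc : c ≠ 0)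
    (hsol : a ^ p + b ^ p + c ^ p = 0) (w : HeightOneSpectrum (𝓞 F)) (hw : (p : 𝓞 F) ∈ w.asIdeal)
    (hall : ∀ v : HeightOneSpectrum (𝓞 K), v.asIdeal.under (𝓞 F) = w.asIdeal → EqAt v a b c) :
    goodRel F K w a b c = Module.finrank F K := by
  obtain ⟨l, a', b', c', hl, ea, eb, ec, hF', hcp, hall2⟩ := H3AB.scale_mixed ha hb hc hsol
  obtain ⟨w', hker⟩ := H3AB.exists_hom_ker p (AlgebraicClosure (ZMod p)) w.asIdeal w.isPrime hw
  obtain ⟨ψ, hψ⟩ := exists_rel F K (AlgebraicClosure (ZMod p)) w'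
  rw [goodRel_eq hw hker hψ hF' hall2]
  have hall' : ∀ i, Good (fun i => ψ i a') (fun i => ψ i b') i := fun i => by
    have h1 : (RingHom.ker (ψ i)).under (𝓞 F) = w.asIdeal := by rw [under_ker hψ i, hker]
    have hne := (H52FD.prime_data (p := p) _ (RingHom.ker_isPrime (ψ i)) (H52FD.p_mem_ker (ψ i))).1
    exact (good_iff hF' i).2 ((hall2 ⟨_, RingHom.ker_isPrime (ψ i), hne⟩
      (H52FD.p_mem_ker (ψ i))).1 (hall ⟨_, RingHom.ker_isPrime (ψ i), hne⟩ h1))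
  rw [← Nat.card_fin (Module.finrank F K)]
  exact Nat.card_congr (Equiv.subtypeUnivEquiv hall')

end H55AB
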