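import Pool.Agent.H85.FD.S3

/-!
# Project AB / FD, module Fam: from root multiplicities to `S_3`-stable families

`P = ∏ (A_i + X B_i)`, no `(A_i, B_i) = (0, 0)`.  The family `T_i = -B_i / A_i` over the set of the
good indices (`A_i, B_i, A_i + B_i ≠ 0`) is `S_3`-stable if the root multiplicities of `P` at
`x ≠ 0, 1` are invariant under `x ↦ 1/x` and `x ↦ 1 - x`.
-/

namespace H55AB

open Polynomial Finset H85FD

variable {Ω : Type*} [Field Ω] {ι : Type*} [Fintype ι]

/-- root multiplicities of a product of linear factors -/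
theorem rootMult_prod (A B : ι → Ω) (h0 : ∀ i, A i ≠ 0 ∨ B i ≠ 0) (x : Ω) (hx : x ≠ 0) :
    rootMultiplicity x (∏ i, (C (A i) + X * C (B i)))
      = Nat.card {i // A i ≠ 0 ∧ B i ≠ 0 ∧ - B i / A i = x⁻¹} := by
  classical
  have hne : ∀ i, C (A i) + X * C (B i) ≠ 0 := by
    intro i h
    have h1 := congrArg (fun q : Polynomial Ω => q.coeff 0) h
    have h2 := congrArg (fun q : Polynomial Ω => q.coeff 1) h
    simp at h1 h2
    rcases h0 i with h3 | h3
    · exact h3 h1
    · exact h3 h2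
  have hprod : ∏ i, (C (A i) + X * C (B i)) ≠ 0 := prod_ne_zero_iff.2 fun i _ => hne i
  rw [← count_roots, roots_prod _ _ hprod, Multiset.count_bind]
  have h1 : ∀ i, Multiset.count x (C (A i) + X * C (B i)).roots
      = if A i ≠ 0 ∧ B i ≠ 0 ∧ - B i / A i = x⁻¹ then 1 else 0 := by
    intro i
    rw [count_roots]
    by_cases hB : B i = 0
    · have hA : A i ≠ 0 := (h0 i).resolve_right (not_not.2 hB)
      rw [if_neg (by simp [hB]), hB, C_0, mul_zero, add_zero, rootMultiplicity_C]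
    · have h2 : C (A i) + X * C (B i) = C (B i) * (X - C (-A i / B i)) := by
        rw [mul_sub, ← C_mul, mul_comm X, show B i * (-A i / B i) = - A i by field_simp, C_neg]
        ring
      rw [h2, rootMultiplicity_mul (h2 ▸ hne i), rootMultiplicity_C, zero_add,
        rootMultiplicity_X_sub_C]
      by_cases hA : A i = 0
      · rw [if_neg, if_neg (by simp [hA])]
        rw [hA, neg_zero, zero_div]
        exact hx
      · have h3 : (x = -A i / B i) ↔ (- B i / A i = x⁻¹) := by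
          constructor
          · intro h
            rw [h, inv_div, div_neg, neg_div]
          · intro h
            rw [← inv_inv x, ← h, inv_div, div_neg, neg_div]
        by_cases h4 : x = -A i / B i
        · rw [if_pos h4, if_pos ⟨hA, hB, h3.1 h4⟩]
        · rw [if_neg h4, if_neg (fun h => h4 (h3.2 h.2.2))]
  have h5 : (Multiset.map (fun b => Multiset.count x (C (A b) + X * C (B b)).roots) univ.val).sum
      = ∑ i, Multiset.count x (C (A i) + X * C (B i)).roots := rfl
  rw [h5, sum_congr rfl (fun i _ => h1 i), sum_boole, Nat.cast_id, Nat.card_eq_fintype_card,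
    Fintype.card_subtype]

omit [Field Ω] in
/-- a substitution which preserves the multiplicities is realised by a permutation -/
theorem perm_of_mul {α : Type*} [Fintype α] (T : α → Ω) (g : Ω → Ω) (hg : ∀ y, g (g y) = y)
    (h : ∀ y, H85FD.mul T (g y) = H85FD.mul T y) :
    ∃ σ : Equiv.Perm α, ∀ v, T (σ v) = g (T v) := by
  classical
  have hfg : ∀ x : Ω, Fintype.card {a // g (T a) = x} = Fintype.card {b // T b = x} := by
    intro x
    rw [Fintype.card_subtype, Fintype.card_subtype]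
    have h1 := h x
    unfold H85FD.mul at h1
    rw [← h1]
    congr 1
    ext v
    simp only [mem_filter, mem_univ, true_and]
    constructor
    · intro h2
      rw [← h2, hg]
    · intro h2
      rw [h2, hg]
  let e : ∀ x : Ω, {a // g (T a) = x} ≃ {b // T b = x} := fun x =>
    Fintype.equivOfCardEq (hfg x)
  exact ⟨Equiv.ofFiberEquiv e, fun v => Equiv.ofFiberEquiv_map e v⟩

/-- the good indices -/
def Good (A B : ι → Ω) (i : ι) : Prop := A i ≠ 0 ∧ B i ≠ 0 ∧ A i + B i ≠ 0

open Classical in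
/-- the multiplicities of the good family are root multiplicities -/
theorem mul_eq_root (A B : ι → Ω) (h0 : ∀ i, A i ≠ 0 ∨ B i ≠ 0) (t : Ω) (ht0 : t ≠ 0)
    (ht1 : t ≠ 1) :
    H85FD.mul (fun i : {i // Good A B i} => - B i.1 / A i.1) t
      = rootMultiplicity t⁻¹ (∏ i, (C (A i) + X * C (B i))) := by
  rw [rootMult_prod A B h0 t⁻¹ (inv_ne_zero ht0), inv_inv]
  unfold H85FD.mul
  rw [← Fintype.card_subtype, ← Nat.card_eq_fintype_card]
  refine Nat.card_congr ⟨fun i => ⟨i.1.1, i.1.2.1, i.1.2.2.1, i.2⟩,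
    fun i => ⟨⟨i.1, i.2.1, i.2.2.1, ?_⟩, i.2.2.2⟩, fun i => rfl, fun i => rfl⟩
  intro h
  apply ht1
  rw [← i.2.2.2]
  have h1 : - B i.1 = A i.1 := by linear_combination -h
  rw [h1]
  exact div_self i.2.1

open Classical in
/-- **`S_3`-stability from the root multiplicities** -/
theorem s3_of_mult (A B : ι → Ω) (h0 : ∀ i, A i ≠ 0 ∨ B i ≠ 0)
    (hinv : ∀ x : Ω, x ≠ 0 → x ≠ 1 → rootMultiplicity x⁻¹ (∏ i, (C (A i) + X * C (B i)))
      = rootMultiplicity x (∏ i, (C (A i) + X * C (B i))))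
    (hsub : ∀ x : Ω, x ≠ 0 → x ≠ 1 → rootMultiplicity (1 - x) (∏ i, (C (A i) + X * C (B i)))
      = rootMultiplicity x (∏ i, (C (A i) + X * C (B i)))) :
    S3St (fun i : {i // Good A B i} => - B i.1 / A i.1) := by
  set P := ∏ i, (C (A i) + X * C (B i)) with hP
  set T := (fun i : {i // Good A B i} => - B i.1 / A i.1) with hT
  have hT0 : ∀ v, T v ≠ 0 := fun v => div_ne_zero (neg_ne_zero.2 v.2.2.1) v.2.1
  have hT1 : ∀ v, T v ≠ 1 := by
    intro v h
    apply v.2.2.2
    have h1 := (div_eq_one_iff_eq v.2.1).1 h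
    rw [← h1]
    ring
  have hm : ∀ t : Ω, t ≠ 0 → t ≠ 1 → H85FD.mul T t = rootMultiplicity t⁻¹ P :=
    fun t h1 h2 => mul_eq_root A B h0 t h1 h2
  have hz : ∀ t : Ω, (∀ v, T v ≠ t) → H85FD.mul T t = 0 := by
    intro t h
    by_contra hne
    obtain ⟨v, hv⟩ := (mul_pos_iff T t).mp (Nat.pos_of_ne_zero hne)
    exact h v hv
  have e1 : ∀ y : Ω, H85FD.mul T y⁻¹ = H85FD.mul T y := by
    intro y
    by_cases hy0 : y = 0
    · rw [hy0, inv_zero]
    by_cases hy1 : y = 1
    · rw [hy1, inv_one]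
    rw [hm _ (inv_ne_zero hy0) (by rwa [Ne, inv_eq_one]), hm y hy0 hy1, inv_inv]
    exact (hinv y hy0 hy1).symm
  have e2 : ∀ y : Ω, H85FD.mul T (1 - y) = H85FD.mul T y := by
    intro y
    by_cases hy0 : y = 0
    · rw [hy0, sub_zero, hz 1 hT1, hz 0 hT0]
    by_cases hy1 : y = 1
    · rw [hy1, sub_self, hz 1 hT1, hz 0 hT0]
    have h1 : 1 - y ≠ 0 := fun h => hy1 (sub_eq_zero.1 h).symm
    have h2 : 1 - y ≠ 1 := fun h => hy0 (by linear_combination -h)
    rw [hm _ h1 h2, hm y hy0 hy1, hinv _ h1 h2, hsub y hy0 hy1]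
    exact (hinv y hy0 hy1).symm
  obtain ⟨σ, hσ⟩ := perm_of_mul T (fun y => y⁻¹) inv_inv e1
  obtain ⟨τ, hτ⟩ := perm_of_mul T (fun y => 1 - y) (fun y => by ring) e2
  exact ⟨hT1, ⟨σ, fun v => by rw [hσ]; exact inv_mul_cancel₀ (hT0 v)⟩,
    ⟨τ, fun v => by rw [hτ]; ring⟩⟩

end H55AB
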