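import Mathlib

/-!
# Project AB, part D3, module Comp: the compositum with the cyclotomic field

`F ⊆ K` number fields, `F ⊆ L = ℚ(ζ_f)`.  There is a number field `N ⊇ K, L` (over `F`) such that `[N:L]`
divides `[K:F]`; if `[K:F]` is odd, every automorphism of `L` over `F` of order two is the restriction of
an automorphism of `N` over `K`.
-/

namespace H55AB

open NumberField Polynomial

section

variable (f : ℕ) [NeZero f] (F : Type*) [Field F] (K : Type*) [Field K] (L : Type*) [Field L]
  (N : Type*) [Field N] [Algebra F K] [Algebra F L] [Algebra F N] [Algebra K N] [Algebra L N]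
  [IsScalarTower F K N] [IsScalarTower F L N]

omit [NeZero f] in
/-- a cyclotomic extension of `ℚ` is cyclotomic over its subfields -/
theorem cyc_tower [NumberField F] [CharZero L] [IsCyclotomicExtension {f} ℚ L] :
    IsCyclotomicExtension {f} F L := by
  have h := (IsCyclotomicExtension.iff_adjoin_eq_top {f} ℚ L).1 inferInstance
  have hT : IsScalarTower ℚ F L := IsScalarTower.of_algebraMap_eq' (Subsingleton.elim _ _)
  refine (IsCyclotomicExtension.iff_adjoin_eq_top {f} F L).2 ⟨h.1, ?_⟩
  rw [eq_top_iff]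
  intro x _
  have hx : x ∈ Algebra.adjoin ℚ {b : L | ∃ n ∈ ({f} : Set ℕ), n ≠ 0 ∧ b ^ n = 1} := by
    rw [h.2]
    exact Algebra.mem_top
  refine Algebra.adjoin_induction (p := fun y _ => y ∈
    Algebra.adjoin F {b : L | ∃ n ∈ ({f} : Set ℕ), n ≠ 0 ∧ b ^ n = 1}) ?_ ?_ ?_ ?_ hx
  · intro y hy
    exact Algebra.subset_adjoin hy
  · intro r
    rw [IsScalarTower.algebraMap_apply ℚ F L]
    exact Subalgebra.algebraMap_mem _ _
  · intro y z _ _ hy hz
    exact add_mem hy hz
  · intro y z _ _ hy hz
    exact mul_mem hy hz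

variable {f F K L N}

/-- the exponents of an automorphism of `N` over `K` and of its restriction to `L` agree -/
theorem autToPow_restrict [IsCyclotomicExtension {f} K N] [IsCyclotomicExtension {f} F L]
    [Normal F L] {ζ : L} (hζ : IsPrimitiveRoot ζ f) (hζN : IsPrimitiveRoot (algebraMap L N ζ) f)
    (τ : N ≃ₐ[K] N) :
    hζ.autToPow F ((τ.restrictScalars F).restrictNormal L) = hζN.autToPow K τ := by
  have h1 := hζ.autToPow_spec F ((τ.restrictScalars F).restrictNormal L)
  have h2 := hζN.autToPow_spec K τ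
  have h3 := AlgEquiv.restrictNormal_commutes (τ.restrictScalars F) L ζ
  rw [← h1, map_pow] at h3
  have h4 : (algebraMap L N ζ) ^ ((hζ.autToPow F ((τ.restrictScalars F).restrictNormal L) :
      (ZMod f)ˣ) : ZMod f).val = (algebraMap L N ζ) ^ ((hζN.autToPow K τ : (ZMod f)ˣ) : ZMod f).val := by
    rw [h3, h2]
    rfl
  have h5 := hζN.pow_inj (ZMod.val_lt _) (ZMod.val_lt _) h4
  exact Units.ext (ZMod.val_injective f h5)

/-- `[K:F] = r [N:L]`, and the `r`-th power of every exponent of `Gal(L/F)` is one of `Gal(N/K)` -/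
theorem comp_core [IsCyclotomicExtension {f} K N] [IsCyclotomicExtension {f} F L]
    [FiniteDimensional F K] [FiniteDimensional F L] [FiniteDimensional K N]
    [FiniteDimensional L N] {ζ : L} (hζ : IsPrimitiveRoot ζ f)
    (hζN : IsPrimitiveRoot (algebraMap L N ζ) f) :
    ∃ r : ℕ, Module.finrank F K = r * Module.finrank L N ∧
      ∀ κ : L ≃ₐ[F] L, ∃ τ : N ≃ₐ[K] N, hζN.autToPow K τ = (hζ.autToPow F κ) ^ r := by
  have hG1 : IsGalois F L := IsCyclotomicExtension.isGalois {f} F L
  have hG2 : IsGalois K N := IsCyclotomicExtension.isGalois {f} K N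
  set H' := (hζN.autToPow K).range with hH'
  set H := (hζ.autToPow F).range with hH
  have hle : H' ≤ H := by
    rintro _ ⟨τ, rfl⟩
    exact ⟨_, autToPow_restrict hζ hζN τ⟩
  have hc' : Nat.card H' = Module.finrank K N := by
    rw [← IsGalois.card_aut_eq_finrank K N]
    exact (Nat.card_congr (MonoidHom.ofInjective (hζN.autToPow_injective K)).toEquiv).symm
  have hc : Nat.card H = Module.finrank F L := by
    rw [← IsGalois.card_aut_eq_finrank F L]
    exact (Nat.card_congr (MonoidHom.ofInjective (hζ.autToPow_injective F)).toEquiv).symm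
  refine ⟨H'.relIndex H, ?_, ?_⟩
  · have h1 := Module.finrank_mul_finrank F K N
    have h2 := Module.finrank_mul_finrank F L N
    have h3 : Nat.card H' * H'.relIndex H = Nat.card H := by
      rw [← Nat.card_congr (Subgroup.subgroupOfEquivOfLe hle).toEquiv]
      exact Subgroup.card_mul_index (H'.subgroupOf H)
    have h4 : 0 < Module.finrank K N := Module.finrank_pos
    rw [← h2, ← hc, ← h3, hc'] at h1
    have h5 : Module.finrank K N * Module.finrank F K
        = Module.finrank K N * (H'.relIndex H * Module.finrank L N) := by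
      rw [mul_comm, h1]
      ring
    exact Nat.eq_of_mul_eq_mul_left h4 h5
  · intro κ
    have h1 : (⟨hζ.autToPow F κ, ⟨κ, rfl⟩⟩ : H) ^ (H'.subgroupOf H).index ∈ H'.subgroupOf H :=
      Subgroup.pow_index_mem _ _
    obtain ⟨τ, hτ⟩ := h1
    exact ⟨τ, hτ⟩

/-- if `[K:F]` is odd, the automorphisms of `L` over `F` of order two extend to `N` over `K` -/
theorem comp_ext [IsCyclotomicExtension {f} K N] [IsCyclotomicExtension {f} F L]
    [FiniteDimensional F K] [FiniteDimensional F L] [FiniteDimensional K N]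
    [FiniteDimensional L N] {ζ : L} (hζ : IsPrimitiveRoot ζ f)
    (hodd : Odd (Module.finrank F K)) (κ : L ≃ₐ[F] L) (hκ : κ * κ = 1) :
    ∃ τ : N ≃ₐ[K] N, ∀ x : L, τ (algebraMap L N x) = algebraMap L N (κ x) := by
  have hG1 : IsGalois F L := IsCyclotomicExtension.isGalois {f} F L
  have hζN : IsPrimitiveRoot (algebraMap L N ζ) f := hζ.map_of_injective (algebraMap L N).injective
  obtain ⟨r, hr, h⟩ := comp_core (F := F) (K := K) hζ hζN
  obtain ⟨τ, hτ⟩ := h κ
  have hr2 : Odd r := by
    rw [hr] at hodd
    exact (Nat.odd_mul.1 hodd).1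
  have h2 : (hζ.autToPow F κ) ^ r = hζ.autToPow F κ := by
    obtain ⟨k, hk⟩ := hr2
    rw [hk, pow_succ, pow_mul, pow_two, ← map_mul, hκ, map_one, one_pow, one_mul]
  rw [h2, ← autToPow_restrict (F := F) hζ hζN τ] at hτ
  have h3 := hζ.autToPow_injective F hτ
  refine ⟨τ, fun x => ?_⟩
  have h4 := AlgEquiv.restrictNormal_commutes (τ.restrictScalars F) L x
  rw [h3] at h4
  exact h4.symm

end

universe u v w

theorem comp_aux (f : ℕ) [NeZero f] (F : Type w) [Field F] [NumberField F] (K : Type u) [Field K]
    [NumberField K] [Algebra F K] (L : Type v) [Field L] [NumberField L] [Algebra F L]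
    [IsCyclotomicExtension {f} ℚ L] (N : Type u) [Field N] [NumberField N] [Algebra K N]
    [IsCyclotomicExtension {f} K N] :
    ∃ (_ : Algebra L N),
      (∀ x : F, algebraMap K N (algebraMap F K x) = algebraMap L N (algebraMap F L x)) ∧
      Module.finrank L N ∣ Module.finrank F K ∧
      (Odd (Module.finrank F K) → ∀ κ : L ≃ₐ[F] L, κ * κ = 1 →
        ∃ τ : N ≃ₐ[K] N, ∀ x : L, τ (algebraMap L N x) = algebraMap L N (κ x)) := by
  have hcF : IsCyclotomicExtension {f} F L := cyc_tower f F L
  let aFN : Algebra F N := ((algebraMap K N).comp (algebraMap F K)).toAlgebra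
  have hT : IsScalarTower F K N := IsScalarTower.of_algebraMap_eq' rfl
  -- `L → N` over `F`
  have hsp : IsSplittingField F L (X ^ f - 1) :=
    IsCyclotomicExtension.isSplittingField_X_pow_sub_one f F L
  have hspN : IsSplittingField K N (X ^ f - 1) :=
    IsCyclotomicExtension.isSplittingField_X_pow_sub_one f K N
  have hS : ((X ^ f - 1 : F[X]).map (algebraMap F N)).Splits := by
    have := hspN.splits
    rw [Polynomial.map_sub, Polynomial.map_pow, map_X, Polynomial.map_one] at this
    rw [Polynomial.map_sub, Polynomial.map_pow, map_X, Polynomial.map_one]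
    exact this
  let φ : L →ₐ[F] N := IsSplittingField.lift L (X ^ f - 1 : F[X]) hS
  let aLN : Algebra L N := φ.toRingHom.toAlgebra
  have hT2 : IsScalarTower F L N := IsScalarTower.of_algebraMap_eq' (φ.comp_algebraMap).symm
  have hQF : IsScalarTower ℚ F K := IsScalarTower.of_algebraMap_eq' (Subsingleton.elim _ _)
  have hQL : IsScalarTower ℚ F L := IsScalarTower.of_algebraMap_eq' (Subsingleton.elim _ _)
  have hQK : IsScalarTower ℚ K N := IsScalarTower.of_algebraMap_eq' (Subsingleton.elim _ _)
  have hQN : IsScalarTower ℚ L N := IsScalarTower.of_algebraMap_eq' (Subsingleton.elim _ _)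
  have h1 : FiniteDimensional F K := Module.Finite.of_restrictScalars_finite ℚ F K
  have h2 : FiniteDimensional F L := Module.Finite.of_restrictScalars_finite ℚ F L
  have h3 : FiniteDimensional K N := Module.Finite.of_restrictScalars_finite ℚ K N
  have h4 : FiniteDimensional L N := Module.Finite.of_restrictScalars_finite ℚ L N
  have hζ := IsCyclotomicExtension.zeta_spec f ℚ L
  have hζN : IsPrimitiveRoot (algebraMap L N (IsCyclotomicExtension.zeta f ℚ L)) f :=
    hζ.map_of_injective (algebraMap L N).injective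
  refine ⟨aLN, ?_, ?_, ?_⟩
  · intro x
    rw [← IsScalarTower.algebraMap_apply F K N, ← IsScalarTower.algebraMap_apply F L N]
  · obtain ⟨r, hr, -⟩ := comp_core (F := F) (K := K) hζ hζN
    exact ⟨r, by rw [hr, mul_comm]⟩
  · intro hodd κ hκ
    exact comp_ext hζ hodd κ hκ

/-- **The compositum.** -/
theorem exists_comp (f : ℕ) [NeZero f] (F : Type w) [Field F] [NumberField F] (K : Type u) [Field K]
    [NumberField K] [Algebra F K] (L : Type v) [Field L] [NumberField L] [Algebra F L]
    [IsCyclotomicExtension {f} ℚ L] :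
    ∃ (N : Type u) (_ : Field N) (_ : NumberField N) (_ : Algebra K N) (_ : Algebra L N),
      (∀ x : F, algebraMap K N (algebraMap F K x) = algebraMap L N (algebraMap F L x)) ∧
      Module.finrank L N ∣ Module.finrank F K ∧
      (Odd (Module.finrank F K) → ∀ κ : L ≃ₐ[F] L, κ * κ = 1 →
        ∃ τ : N ≃ₐ[K] N, ∀ x : L, τ (algebraMap L N x) = algebraMap L N (κ x)) := by
  have hfK : NeZero ((f : ℕ) : K) := ⟨Nat.cast_ne_zero.2 (NeZero.ne f)⟩
  have hcN : IsCyclotomicExtension {f} K (CyclotomicField f K) :=
    CyclotomicField.isCyclotomicExtension f K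
  have hN : NumberField (CyclotomicField f K) := IsCyclotomicExtension.numberField {f} K _
  obtain ⟨aLN, h⟩ := comp_aux f F K L (CyclotomicField f K)
  exact ⟨CyclotomicField f K, inferInstance, hN, inferInstance, aLN, h⟩

end H55AB
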