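import Pool.Agent.H55.AB.RealF
import Pool.Agent.H9.AB.RelA

/-!
# Project AB, part D3, module NormInv: invariance of the relative norm form

`K, L = ℚ(ζ_f) ⊆ N`, `τ ∈ Aut(N/K)` inducing complex conjugation on `L`: the relative norm form
`N_{N/L}(x + y X)` of elements `x, y` of `K` is invariant under complex conjugation.  So the reductions of
the `L`-embeddings of `N` over `w_g` and over `w_{-g}` have the same product `∏ (ψ x + X ψ y)`.
-/

namespace H55AB

open NumberField Polynomial H9AB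

section

variable {K L N : Type*} [Field K] [Field L] [Field N] [Algebra K N] [Algebra L N]

/-- the norm is equivariant -/
theorem norm_equiv (τ : N ≃ₐ[K] N) (κ : L ≃+* L)
    (h : ∀ x, τ (algebraMap L N x) = algebraMap L N (κ x)) (x : N) :
    Algebra.norm L (τ x) = κ (Algebra.norm L x) := by
  have h1 := Algebra.norm_eq_of_equiv_equiv (A₁ := L) (B₁ := N) (A₂ := L) (B₂ := N) κ
    (τ : N ≃+* N) (RingHom.ext fun y => (h y).symm) x
  rw [h1, RingEquiv.apply_symm_apply]
  rfl

/-- invariance of the norm form over `L` -/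
theorem nfL_inv [CharZero L] [FiniteDimensional L N] (τ : N ≃ₐ[K] N) (κ : L ≃+* L)
    (h : ∀ x, τ (algebraMap L N x) = algebraMap L N (κ x)) (x y : K) :
    (nfL L N (algebraMap K N x) (algebraMap K N y)).map (κ : L →+* L)
      = nfL L N (algebraMap K N x) (algebraMap K N y) := by
  apply Polynomial.funext
  intro t
  obtain ⟨s, rfl⟩ := κ.surjective t
  have h1 : (κ s) = (κ : L →+* L) s := rfl
  rw [h1, eval_map_apply, nfL_eval, nfL_eval]
  show κ (Algebra.norm L _) = _
  rw [← norm_equiv τ κ h]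
  congr 1
  rw [map_add, Algebra.smul_def, map_mul, h, AlgEquiv.commutes, AlgEquiv.commutes, Algebra.smul_def]
  rfl

end

section

variable (f : ℕ) [NeZero f] {K : Type*} [Field K] [NumberField K] {L : Type*} [Field L]
  [NumberField L] [IsCyclotomicExtension {f} ℚ L] {N : Type*} [Field N] [NumberField N]
  [Algebra K N] [Algebra L N]

/-- invariance of the norm form over `𝓞 L` -/
theorem nfR_inv (τ : N ≃ₐ[K] N)
    (h : ∀ x : L, τ (algebraMap L N x)
      = algebraMap L N ((IsCyclotomicExtension.Rat.galEquivZMod f L).symm (-1) x)) (x y : 𝓞 K) :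
    (nfR L N (algebraMap (𝓞 K) (𝓞 N) x) (algebraMap (𝓞 K) (𝓞 N) y)).map (actL f L (-1))
      = nfR L N (algebraMap (𝓞 K) (𝓞 N) x) (algebraMap (𝓞 K) (𝓞 N) y) := by
  have hinj : Function.Injective (algebraMap (𝓞 L) L) := RingOfIntegers.coe_injective
  apply Polynomial.map_injective _ hinj
  have h1 := nfL_inv τ ((IsCyclotomicExtension.Rat.galEquivZMod f L).symm (-1) : L ≃+* L) h
    (x : K) (y : K)
  have h2 : (algebraMap (𝓞 L) L).comp (actL f L (-1))
      = (((IsCyclotomicExtension.Rat.galEquivZMod f L).symm (-1) : L ≃+* L) : L →+* L).comp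
        (algebraMap (𝓞 L) L) := by
    ext z
    rfl
  rw [Polynomial.map_map, h2, ← Polynomial.map_map, nfR_map]
  exact h1

/-- the products over the fibres of `g` and of `-g` agree -/
theorem prod_neg (τ : N ≃ₐ[K] N)
    (h : ∀ x : L, τ (algebraMap L N x)
      = algebraMap L N ((IsCyclotomicExtension.Rat.galEquivZMod f L).symm (-1) x))
    {Ω : Type*} [Field Ω] (w₀ : 𝓞 L →+* Ω)
    (ψ : (ZMod f)ˣ → Fin (Module.finrank L N) → (𝓞 N →+* Ω))
    (hψ : ∀ g, ∀ x y : 𝓞 N, (nfR L N x y).map (w₀.comp (actL f L g))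
      = ∏ i, (C (ψ g i x) + X * C (ψ g i y))) (g : (ZMod f)ˣ) (x y : 𝓞 K) :
    ∏ i, (C (ψ (-g) i (algebraMap (𝓞 K) (𝓞 N) x)) + X * C (ψ (-g) i (algebraMap (𝓞 K) (𝓞 N) y)))
      = ∏ i, (C (ψ g i (algebraMap (𝓞 K) (𝓞 N) x))
        + X * C (ψ g i (algebraMap (𝓞 K) (𝓞 N) y))) := by
  have h1 : actL f L (-g) = (actL f L g).comp (actL f L (-1)) := by
    rw [← actL_mul, mul_neg, mul_one]
  rw [← hψ, ← hψ, h1, ← RingHom.comp_assoc, ← Polynomial.map_map, nfR_inv f τ h]

end

end H55AB
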