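import Pool.Agent.H55.AB.Comp

/-!
# Project AB, part D3, module RealF: real subfields of `ℚ(ζ_f)` are fixed by `ζ ↦ ζ⁻¹`
-/

namespace H55AB

open NumberField Polynomial IsCyclotomicExtension.Rat

variable (f : ℕ) [NeZero f] (L : Type*) [Field L] [NumberField L] [IsCyclotomicExtension {f} ℚ L]

/-- complex conjugation on `ℚ(ζ_f)` -/
theorem conj_eq (Φ : L →+* ℂ) (x : L) :
    Φ ((galEquivZMod f L).symm (-1) x) = (starRingEnd ℂ) (Φ x) := by
  have hζ := IsCyclotomicExtension.zeta_spec f ℚ L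
  let a : L →ₐ[ℚ] ℂ := (Φ.comp ((galEquivZMod f L).symm (-1) : L →+* L)).toRatAlgHom
  let b : L →ₐ[ℚ] ℂ := ((starRingEnd ℂ).comp Φ).toRatAlgHom
  have hab : a = b := by
    apply (hζ.powerBasis ℚ).algHom_ext
    rw [IsPrimitiveRoot.powerBasis_gen]
    set ζ := IsCyclotomicExtension.zeta f ℚ L with hz
    have h1 : ζ ^ f = 1 := hζ.pow_eq_one
    have h0 : ζ ≠ 0 := hζ.ne_zero (NeZero.ne f)
    have h2 := galEquivZMod_apply_of_pow_eq f L ((galEquivZMod f L).symm (-1)) h1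
    rw [MulEquiv.apply_symm_apply] at h2
    have h3 : (galEquivZMod f L).symm (-1) ζ * ζ = 1 := by
      rw [h2, ← pow_succ]
      have h4 : (((-1 : (ZMod f)ˣ) : ZMod f).val + 1) % f = 0 := by
        apply Nat.mod_eq_zero_of_dvd
        rw [← ZMod.natCast_eq_zero_iff]
        push_cast
        rw [ZMod.natCast_zmod_val]
        simp
      obtain ⟨k, hk⟩ := Nat.dvd_of_mod_eq_zero h4
      rw [hk, pow_mul, h1, one_pow]
    show Φ ((galEquivZMod f L).symm (-1) ζ) = (starRingEnd ℂ) (Φ ζ)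
    have h5 : Φ ζ ^ f = 1 := by rw [← map_pow, h1, map_one]
    have h6 : Φ ζ ≠ 0 := (map_ne_zero Φ).mpr h0
    have h7 : Φ ((galEquivZMod f L).symm (-1) ζ) * Φ ζ = 1 := by rw [← map_mul, h3, map_one]
    have h8 : (starRingEnd ℂ) (Φ ζ) * Φ ζ = 1 := by
      have h9 : ‖Φ ζ‖ = 1 := Complex.norm_eq_one_of_pow_eq_one h5 (NeZero.ne f)
      rw [mul_comm, Complex.mul_conj, Complex.normSq_eq_norm_sq, h9]
      norm_num
    exact mul_right_cancel₀ h6 (h7.trans h8.symm)
  exact DFunLike.congr_fun hab x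

variable {L}

/-- a real subfield of `ℚ(ζ_f)` is fixed by complex conjugation -/
theorem real_fix (F : Type*) [Field F] [NumberField F] [Algebra F L] (r : F →+* ℝ) (x : F) :
    (galEquivZMod f L).symm (-1) (algebraMap F L x) = algebraMap F L x := by
  let aFC : Algebra F ℂ := ((algebraMap ℝ ℂ).comp r).toAlgebra
  have hQL : IsScalarTower ℚ F L := IsScalarTower.of_algebraMap_eq' (Subsingleton.elim _ _)
  have h2 : FiniteDimensional F L := Module.Finite.of_restrictScalars_finite ℚ F L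
  have hal : Algebra.IsAlgebraic F L := Algebra.IsAlgebraic.of_finite F L
  let Φ : L →ₐ[F] ℂ := IsAlgClosed.lift
  have h3 := conj_eq f L (Φ : L →+* ℂ) (algebraMap F L x)
  have h4 : (Φ : L →+* ℂ) (algebraMap F L x) = ((r x : ℝ) : ℂ) := by
    show Φ (algebraMap F L x) = _
    rw [Φ.commutes]
    rfl
  rw [h4, Complex.conj_ofReal, ← h4] at h3
  exact (Φ : L →+* ℂ).injective h3

/-- complex conjugation as an automorphism over a real subfield -/
theorem exists_kappa (F : Type*) [Field F] [NumberField F] [Algebra F L] (r : F →+* ℝ) :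
    ∃ κ : L ≃ₐ[F] L, κ * κ = 1 ∧ ∀ x, κ x = (galEquivZMod f L).symm (-1) x := by
  let κ : L ≃ₐ[F] L := AlgEquiv.ofRingEquiv (f := ((galEquivZMod f L).symm (-1) : L ≃+* L))
    (fun x => real_fix f F r x)
  have hκ : ∀ x, κ x = (galEquivZMod f L).symm (-1) x := fun x => rfl
  refine ⟨κ, ?_, hκ⟩
  ext x
  show κ (κ x) = x
  rw [hκ, hκ, ← AlgEquiv.mul_apply, ← map_mul, show (-1 : (ZMod f)ˣ) * -1 = 1 by simp, map_one]
  rfl

end H55AB
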