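import Pool.Agent.H9.AB.RelNorm
import Pool.Agent.H52.FD.Place

/-!
# FD version 2, module RelDeg: relative local degrees

`w : 𝓞 F → Ω`, `ψ_i : 𝓞 K → Ω` the reductions of the `F`-embeddings of `K` over `w`, `P` a prime of `K`
over `ker w`: the number of the `i` with `ker ψ_i = P` is `e(P|ker w) f(P|ker w)`.
-/

open NumberField Polynomial H9FC H9AB

namespace H55AB

universe u v w

section

/-- the multiplicity of the root `0` of `∏ (A_i + X)` -/
theorem rootMult_zero {Ω : Type*} [Field Ω] {ι : Type*} [Fintype ι] (A : ι → Ω) :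
    rootMultiplicity 0 (∏ i, (C (A i) + X * C (1 : Ω))) = Nat.card {i // A i = 0} := by
  classical
  have hne : ∀ i, C (A i) + X * C (1 : Ω) ≠ 0 := by
    intro i h
    have h2 := congrArg (fun q : Polynomial Ω => q.coeff 1) h
    simp at h2
  have hprod : ∏ i, (C (A i) + X * C (1 : Ω)) ≠ 0 := Finset.prod_ne_zero_iff.2 fun i _ => hne i
  rw [← count_roots, roots_prod _ _ hprod, Multiset.count_bind]
  have h1 : ∀ i, Multiset.count 0 (C (A i) + X * C (1 : Ω)).roots = if A i = 0 then 1 else 0 := by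
    intro i
    have h2 : C (A i) + X * C (1 : Ω) = X - C (-A i) := by
      rw [C_1, mul_one, C_neg]
      ring
    rw [h2, roots_X_sub_C, Multiset.count_singleton]
    by_cases h : A i = 0
    · rw [if_pos h, if_pos (by rw [h, neg_zero])]
    · rw [if_neg h, if_neg (fun h' => h (neg_eq_zero.1 h'.symm))]
  have h5 : (Multiset.map (fun b => Multiset.count 0 (C (A b) + X * C (1 : Ω)).roots)
      Finset.univ.val).sum = ∑ i, Multiset.count 0 (C (A i) + X * C (1 : Ω)).roots := rfl
  rw [h5, Finset.sum_congr rfl (fun i _ => h1 i), Finset.sum_boole, Nat.cast_id,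
    Nat.card_eq_fintype_card, Fintype.card_subtype]

/-- an element of `P` in no other prime above `p` -/
theorem exists_sep {K : Type*} [Field K] [NumberField K] (p : ℕ) [Fact p.Prime] (P : Ideal (𝓞 K))
    (hP : P.IsPrime) (hpP : (p : 𝓞 K) ∈ P) :
    ∃ y ∈ P, ∀ Q : Ideal (𝓞 K), Q.IsPrime → (p : 𝓞 K) ∈ Q → Q ≠ P → y ∉ Q := by
  classical
  have hpp : p.Prime := Fact.out
  obtain ⟨hne, hmax, -, -, hlies, -⟩ := H52FD.prime_data (p := p) P hP hpP
  have hpmax : (Ideal.span {(p : ℤ)}).IsMaximal := Int.ideal_span_isMaximal_of_prime p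
  set T : Finset (Ideal (𝓞 K)) := ((Ideal.span {(p : ℤ)}).primesOver (𝓞 K)).toFinset with hT
  have hTmem : ∀ Q, Q ∈ T ↔ Q ∈ (Ideal.span {(p : ℤ)}).primesOver (𝓞 K) := fun Q => Set.mem_toFinset
  have hTmax : ∀ Q ∈ T, Q.IsMaximal := by
    intro Q hQ
    have h1 := (hTmem Q).1 hQ
    have h2 : Q.IsPrime := h1.1
    have h3 : Q.LiesOver (Ideal.span {(p : ℤ)}) := h1.2
    exact Ideal.IsMaximal.of_liesOver_isMaximal Q (Ideal.span {(p : ℤ)})
  by_contra hcon
  push Not at hcon
  have hsub : (P : Set (𝓞 K)) ⊆ ⋃ Q ∈ ((T.erase P : Finset (Ideal (𝓞 K))) : Set (Ideal (𝓞 K))),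
      ((Q : Ideal (𝓞 K)) : Set (𝓞 K)) := by
    intro y hy
    obtain ⟨Q, hQ, hpQ, hQP, hyQ⟩ := hcon y hy
    rw [Set.mem_iUnion₂]
    exact ⟨Q, by
      rw [Finset.mem_coe, Finset.mem_erase]
      exact ⟨hQP, (hTmem Q).2 ⟨hQ, (H52FD.prime_data (p := p) Q hQ hpQ).2.2.2.2.1⟩⟩, hyQ⟩
  rcases (T.erase P).eq_empty_or_nonempty with he | ⟨Q0, hQ0⟩
  · rw [he] at hsub
    simp at hsub
    exact absurd P.zero_mem (by
      rw [← SetLike.mem_coe, hsub]
      exact Set.notMem_empty _)
  · rw [Ideal.subset_union_prime Q0 Q0 (fun i hi _ _ =>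
      (hTmax i (Finset.mem_of_mem_erase hi)).isPrime)] at hsub
    obtain ⟨Q, hQ, hPQ⟩ := hsub
    have h1 := hmax.eq_of_le (hTmax Q (Finset.mem_of_mem_erase hQ)).ne_top hPQ
    exact (Finset.ne_of_mem_erase hQ) h1.symm

end

section

variable {F : Type u} [Field F] [NumberField F] {K : Type v} [Field K] [NumberField K] [Algebra F K]
  {p : ℕ} [Fact p.Prime] {Ω : Type w} [Field Ω] [CharP Ω p]

/-- the number of the members with kernel `P` in terms of the norm form over the residue field -/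
theorem card_eq_mult {ι : Type*} [Fintype ι] (φ : ι → (𝓞 K →+* Ω)) (w : 𝓞 F →+* Ω) (y : 𝓞 K)
    (hform : (nfR F K y 1).map w = ∏ i, (C (φ i y) + X * C (φ i 1)))
    (P : Ideal (𝓞 K)) (hy : y ∈ P)
    (hsep : ∀ Q : Ideal (𝓞 K), Q.IsPrime → (p : 𝓞 K) ∈ Q → Q ≠ P → y ∉ Q) :
    Nat.card {i // RingHom.ker (φ i) = P}
      = rootMultiplicity 0 ((nfR F K y 1).map (Ideal.Quotient.mk (RingHom.ker w))) := by
  have hiff : ∀ i, RingHom.ker (φ i) = P ↔ φ i y = 0 := by
    intro i
    constructor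
    · intro h
      rw [← RingHom.mem_ker, h]
      exact hy
    · intro h
      by_contra hne
      exact hsep _ (RingHom.ker_isPrime _) (H52FD.p_mem_ker _) hne h
  rw [Nat.card_congr (Equiv.subtypeEquivRight hiff)]
  have hform' : (nfR F K y 1).map w = ∏ i, (C (φ i y) + X * C (1 : Ω)) := by
    rw [hform]
    exact Finset.prod_congr rfl fun i _ => by rw [map_one]
  rw [← rootMult_zero (fun i => φ i y), ← hform']
  have hprime : (RingHom.ker w).IsPrime := RingHom.ker_isPrime w
  let g : (𝓞 F ⧸ RingHom.ker w) →+* Ω := Ideal.Quotient.lift _ w fun x hx => hx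
  have hg : Function.Injective g := by
    rw [injective_iff_map_eq_zero]
    intro x
    obtain ⟨x, rfl⟩ := Ideal.Quotient.mk_surjective x
    intro hx
    exact Ideal.Quotient.eq_zero_iff_mem.2 hx
  have hw : w = g.comp (Ideal.Quotient.mk (RingHom.ker w)) := by
    ext x
    rfl
  conv_lhs => rw [hw, ← Polynomial.map_map, ← map_zero g]
  exact (Polynomial.eq_rootMultiplicity_map hg 0).symm

variable (F K) in
/-- a number field with all the conjugates of `K` -/
theorem exists_big : ∃ (N : Type v) (_ : Field N) (_ : NumberField N),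
    ∀ x : K, ((minpoly ℚ x).map (algebraMap ℚ N)).Splits := by
  let N := IntermediateField.normalClosure ℚ K (AlgebraicClosure K)
  have hN : IsNormalClosure ℚ K N :=
    Algebra.IsAlgebraic.isNormalClosure_normalClosure fun x => IsAlgClosed.splits _
  have hNf : NumberField N := { to_charZero := inferInstance, to_finiteDimensional := inferInstance }
  exact ⟨N, inferInstance, hNf, hN.splits⟩

end

section

variable (F : Type u) [Field F] [NumberField F] (K : Type v) [Field K] [NumberField K] [Algebra F K]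
  (p : ℕ) [Fact p.Prime] {Ω : Type w} [Field Ω] [IsAlgClosed Ω] [CharP Ω p]
  (N : Type*) [Field N] [NumberField N]

/-- the embeddings `K → N` with image of `y` in a fixed kernel: absolute count -/
theorem card_abs (hN : ∀ x : K, ((minpoly ℚ x).map (algebraMap ℚ N)).Splits) (χ : 𝓞 N →+* Ω)
    (P : Ideal (𝓞 K)) (hP : P.IsPrime) (hpP : (p : 𝓞 K) ∈ P) :
    Nat.card {σ : K →ₐ[ℚ] N // RingHom.ker (χ.comp (RingOfIntegers.mapRingHom (σ : K →+* N))) = P}
      = P.ramificationIdx ℤ * P.inertiaDeg ℤ := by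
  classical
  have hcard : Fintype.card (K →ₐ[ℚ] N) = Module.finrank ℚ K := AlgHom.card_of_splits ℚ K N hN
  let e : Fin (Module.finrank ℚ K) ≃ (K →ₐ[ℚ] N) := (Fintype.equivFinOfCardEq hcard).symm
  have hred : IsRedFam (fun i => χ.comp (RingOfIntegers.mapRingHom (e i : K →+* N))) := by
    intro a b
    have h1 := nf_map_prod K N hcard a b
    have h2 : (nf K a b).map (Int.castRingHom (𝓞 N)) = ∏ σ : K →ₐ[ℚ] N,
        (C (RingOfIntegers.mapRingHom (σ : K →+* N) a)
          + X * C (RingOfIntegers.mapRingHom (σ : K →+* N) b)) := by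
      apply map_injective (algebraMap (𝓞 N) N) RingOfIntegers.coe_injective
      rw [Polynomial.map_map, RingHom.eq_intCast' ((algebraMap (𝓞 N) N).comp (Int.castRingHom (𝓞 N)))]
      rw [h1, Polynomial.map_prod]
      refine Finset.prod_congr rfl fun σ _ => ?_
      rw [Polynomial.map_add, Polynomial.map_mul, map_C, map_C, map_X]
      rfl
    have h3 : Int.castRingHom Ω = χ.comp (Int.castRingHom (𝓞 N)) := (RingHom.eq_intCast' _).symm
    rw [h3, ← Polynomial.map_map, h2, Polynomial.map_prod, ← Equiv.prod_comp e]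
    refine Finset.prod_congr rfl fun i _ => ?_
    rw [Polynomial.map_add, Polynomial.map_mul, map_C, map_C, map_X]
    rfl
  rw [← H52FD.card_ker hred P hP hpP]
  exact (Nat.card_congr (e.subtypeEquiv fun i => Iff.rfl)).symm

/-- the number `n` of the members with kernel `P`, as a function of the prime of `F` -/
noncomputable def nn (y : 𝓞 K) (I : Ideal (𝓞 F)) : ℕ :=
  rootMultiplicity 0 ((nfR F K y 1).map (Ideal.Quotient.mk I))

/-- the embeddings over a given embedding of `F` -/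
theorem card_fib (hN : ∀ x : K, ((minpoly ℚ x).map (algebraMap ℚ N)).Splits) (χ : 𝓞 N →+* Ω)
    (P : Ideal (𝓞 K)) (y : 𝓞 K) (hy : y ∈ P)
    (hsep : ∀ Q : Ideal (𝓞 K), Q.IsPrime → (p : 𝓞 K) ∈ Q → Q ≠ P → y ∉ Q) (s : F →ₐ[ℚ] N) :
    Nat.card {σ : K →ₐ[ℚ] N // σ.comp (algebraMap F K).toRatAlgHom = s ∧
        RingHom.ker (χ.comp (RingOfIntegers.mapRingHom (σ : K →+* N))) = P}
      = nn F K y (RingHom.ker (χ.comp (RingOfIntegers.mapRingHom (s : F →+* N)))) := by
  classical
  letI : Algebra F N := (s : F →+* N).toAlgebra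
  have hT : IsScalarTower ℚ F N := IsScalarTower.of_algebraMap_eq' (Subsingleton.elim _ _)
  have hT2 : IsScalarTower ℚ F K := IsScalarTower.of_algebraMap_eq' (Subsingleton.elim _ _)
  have hfd : FiniteDimensional F K := Module.Finite.of_restrictScalars_finite ℚ F K
  have hcard : Fintype.card (K →ₐ[F] N) = Module.finrank F K := by
    apply AlgHom.card_of_splits F K N
    intro x
    exact (IsIntegral.of_finite ℚ x).minpoly_splits_tower_top (hN x)
  have hform := nfR_map_prod F K N hcard y 1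
  have hw : χ.comp (RingOfIntegers.mapRingHom (s : F →+* N))
      = χ.comp (algebraMap (𝓞 F) (𝓞 N)) := rfl
  have h1 := card_eq_mult (p := p) (Ω := Ω)
    (fun σ : K →ₐ[F] N => χ.comp (RingOfIntegers.mapRingHom (σ : K →+* N)))
    (χ.comp (algebraMap (𝓞 F) (𝓞 N))) y (by
      rw [← Polynomial.map_map, hform, Polynomial.map_prod]
      refine Finset.prod_congr rfl fun σ _ => ?_
      rw [Polynomial.map_add, Polynomial.map_mul, map_C, map_C, map_X]
      rfl) P hy hsep
  unfold nn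
  rw [hw, ← h1]
  refine Nat.card_congr ⟨fun σ => ⟨{ (σ.1 : K →+* N) with
      commutes' := fun r => DFunLike.congr_fun σ.2.1 r }, σ.2.2⟩,
    fun σ => ⟨(σ.1 : K →+* N).toRatAlgHom, ?_, σ.2⟩, fun σ => ?_, fun σ => ?_⟩
  · ext r
    exact σ.1.commutes r
  · apply Subtype.ext
    ext x
    rfl
  · apply Subtype.ext
    ext x
    rfl

end

/-- **Relative local degrees.** -/
theorem card_ker_rel (F : Type u) [Field F] [NumberField F] (K : Type v) [Field K] [NumberField K]
    [Algebra F K] (p : ℕ) [Fact p.Prime] {Ω : Type w} [Field Ω] [IsAlgClosed Ω] [CharP Ω p]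
    (w : 𝓞 F →+* Ω) (ψ : Fin (Module.finrank F K) → (𝓞 K →+* Ω))
    (hψ : ∀ x y : 𝓞 K, (nfR F K x y).map w = ∏ i, (C (ψ i x) + X * C (ψ i y)))
    (P : Ideal (𝓞 K)) (hP : P.IsPrime)
    (hPw : P.comap (algebraMap (𝓞 F) (𝓞 K)) = RingHom.ker w) :
    Nat.card {i // RingHom.ker (ψ i) = P} = P.ramificationIdx (𝓞 F) * P.inertiaDeg (𝓞 F) := by
  classical
  have hpF : (p : 𝓞 F) ∈ RingHom.ker w := H52FD.p_mem_ker w
  have hpP : (p : 𝓞 K) ∈ P := by
    rw [← hPw, Ideal.mem_comap, map_natCast] at hpF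
    exact hpF
  obtain ⟨y, hy, hsep⟩ := exists_sep p P hP hpP
  obtain ⟨N, _, _, hN⟩ := exists_big K
  have hNF : ∀ x : F, ((minpoly ℚ x).map (algebraMap ℚ N)).Splits := by
    intro x
    have := hN (algebraMap F K x)
    rwa [minpoly.algebraMap_eq (algebraMap F K).injective] at this
  obtain ⟨χ⟩ : Nonempty (𝓞 N →+* Ω) := by
    obtain ⟨ψ, -⟩ := exists_redFam N p Ω
    exact ⟨ψ ⟨0, Module.finrank_pos⟩⟩
  have h1 := card_eq_mult (p := p) ψ w y (hψ y 1) P hy hsep
  have hn : Nat.card {i // RingHom.ker (ψ i) = P} = nn F K y (RingHom.ker w) := h1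
  have habs := card_abs K p N hN χ P hP hpP
  have hwp : (RingHom.ker w).IsPrime := RingHom.ker_isPrime w
  have habsF := card_abs F p N hNF χ (RingHom.ker w) hwp hpF
  -- sum over the embeddings of `F`
  set S := {σ : K →ₐ[ℚ] N //
    RingHom.ker (χ.comp (RingOfIntegers.mapRingHom (σ : K →+* N))) = P} with hS
  have hsum : Nat.card S = ∑ s : F →ₐ[ℚ] N, Nat.card {σ : K →ₐ[ℚ] N //
      σ.comp (algebraMap F K).toRatAlgHom = s ∧
        RingHom.ker (χ.comp (RingOfIntegers.mapRingHom (σ : K →+* N))) = P} := by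
    rw [← Nat.card_sigma]
    refine Nat.card_congr ⟨fun σ => ⟨σ.1.comp (algebraMap F K).toRatAlgHom, σ.1, rfl, σ.2⟩,
      fun σ => ⟨σ.2.1, σ.2.2.2⟩, fun σ => rfl, ?_⟩
    rintro ⟨s, σ, rfl, h⟩
    rfl
  have hterm : ∀ s : F →ₐ[ℚ] N, Nat.card {σ : K →ₐ[ℚ] N //
      σ.comp (algebraMap F K).toRatAlgHom = s ∧
        RingHom.ker (χ.comp (RingOfIntegers.mapRingHom (σ : K →+* N))) = P}
      = if RingHom.ker (χ.comp (RingOfIntegers.mapRingHom (s : F →+* N))) = RingHom.ker w
        then nn F K y (RingHom.ker w) else 0 := by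
    intro s
    split_ifs with h
    · rw [card_fib F K p N hN χ P y hy hsep s, h]
    · rw [Nat.card_eq_zero]
      left
      constructor
      rintro ⟨σ, rfl, hσ⟩
      apply h
      rw [← hPw, ← hσ, RingHom.comap_ker]
      congr 1
  rw [hsum, Finset.sum_congr rfl (fun s _ => hterm s), ← Finset.sum_filter, Finset.sum_const,
    smul_eq_mul, ← Fintype.card_subtype, ← Nat.card_eq_fintype_card, habsF] at habs
  have hl : P.LiesOver (RingHom.ker w) := ⟨hPw.symm⟩
  have e1 := Ideal.inertiaDeg_tower (R := ℤ) (RingHom.ker w) P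
  have e2 := Ideal.ramificationIdx_tower (R := ℤ) (RingHom.ker w) P
  have hpos1 := Ideal.ramificationIdx_pos (RingHom.ker w) ℤ
  have hpos2 := Ideal.inertiaDeg_pos (RingHom.ker w) ℤ
  rw [e1, e2] at habs
  rw [hn]
  have hpos : 0 < (RingHom.ker w).ramificationIdx ℤ * (RingHom.ker w).inertiaDeg ℤ :=
    Nat.mul_pos hpos1 hpos2
  apply Nat.eq_of_mul_eq_mul_left hpos
  rw [habs]
  ring

end H55AB
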