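import Pool.Agent.H55.AB.RelSym
import Pool.Agent.H87.FD.Resid

/-!
# FD version 2, module RelPlace: from the members of the family to the places of `K` above `w`
-/

open NumberField Polynomial IsDedekindDomain H9FC H9AB H85FD

namespace H55AB

section

variable {F : Type*} [Field F] [NumberField F] {K : Type*} [Field K] [NumberField K] [Algebra F K]
  {p : ℕ} [Fact p.Prime] {Ω : Type*} [Field Ω] [CharP Ω p]

omit [NumberField F] in
/-- `|O_K/P| = |O_F/q|^f` -/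
theorem card_pow (P : Ideal (𝓞 K)) (hP : P.IsPrime) (hpP : (p : 𝓞 K) ∈ P) [NumberField F] :
    Nat.card (𝓞 K ⧸ P) = Nat.card (𝓞 F ⧸ P.under (𝓞 F)) ^ P.inertiaDeg (𝓞 F) ∧
      (p : 𝓞 F) ∈ P.under (𝓞 F) := by
  have hpF : (p : 𝓞 F) ∈ P.under (𝓞 F) := by
    rw [Ideal.under, Ideal.mem_comap, map_natCast]
    exact hpP
  refine ⟨?_, hpF⟩
  obtain ⟨-, hmax, hfin, -, -, -⟩ := H52FD.prime_data (p := p) P hP hpP
  have hPF : (P.under (𝓞 F)).IsPrime := Ideal.IsPrime.under (𝓞 F) P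
  obtain ⟨-, hmaxF, hfinF, -, -, -⟩ := H52FD.prime_data (p := p) (P.under (𝓞 F)) hPF hpF
  have hl : P.LiesOver (P.under (𝓞 F)) := ⟨rfl⟩
  rw [Ideal.inertiaDeg_eq_of_isMaximal (P.under (𝓞 F)) P]
  letI : Field (𝓞 F ⧸ P.under (𝓞 F)) := Ideal.Quotient.field _
  have : Module.Finite (𝓞 F ⧸ P.under (𝓞 F)) (𝓞 K ⧸ P) := Module.Finite.of_finite
  exact Module.natCard_eq_pow_finrank

/-- the kernels of the members lie over the kernel of `w` -/
theorem under_ker {w : 𝓞 F →+* Ω} {ψ : Fin (Module.finrank F K) → (𝓞 K →+* Ω)} (hψ : RelFam w ψ)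
    (i : Fin (Module.finrank F K)) : (RingHom.ker (ψ i)).under (𝓞 F) = RingHom.ker w := by
  rw [Ideal.under, RingHom.comap_ker, hψ.lies i]

/-- an image of a root of `X² - X + 1` -/
theorem resid_mod (hp3 : p ≠ 3) (φ : 𝓞 K →+* Ω) (a b : 𝓞 K) (ha : φ a ≠ 0)
    (h : (-(φ b) / φ a) ^ 2 - (-(φ b) / φ a) + 1 = 0) : Nat.card (𝓞 K ⧸ RingHom.ker φ) % 3 = 1 := by
  obtain ⟨hne, hmax, hfin, hchar, -, -⟩ :=
    H52FD.prime_data (p := p) (RingHom.ker φ) (RingHom.ker_isPrime φ) (H52FD.p_mem_ker φ)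
  letI : Field (𝓞 K ⧸ RingHom.ker φ) := Ideal.Quotient.field _
  let g : (𝓞 K ⧸ RingHom.ker φ) →+* Ω := Ideal.Quotient.lift _ φ fun x hx => hx
  have hg : ∀ x, g (Ideal.Quotient.mk _ x) = φ x := fun x => rfl
  have h3 : (3 : 𝓞 K ⧸ RingHom.ker φ) ≠ 0 := by
    intro h0
    have h1 : ((3 : ℕ) : 𝓞 K ⧸ RingHom.ker φ) = 0 := by exact_mod_cast h0
    rw [CharP.cast_eq_zero_iff (𝓞 K ⧸ RingHom.ker φ) p] at h1
    exact hp3 ((Nat.prime_dvd_prime_iff_eq (Fact.out : p.Prime) Nat.prime_three).1 h1)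
  refine H87FD.card_mod_three _ h3 (-(Ideal.Quotient.mk _ b) / Ideal.Quotient.mk _ a) ?_
  apply g.injective
  rw [map_add, map_sub, map_pow, map_div₀, map_neg, hg, hg, map_one, map_zero]
  exact h

/-- a finite field with `1` modulo `3` elements contains the roots of `X² - X + 1` -/
theorem exists_sixth (k : Type*) [Field k] [Finite k] (h : Nat.card k % 3 = 1) :
    ∃ z : k, z ^ 2 - z + 1 = 0 := by
  have hfin : Fintype k := Fintype.ofFinite k
  have h1 : Nat.card kˣ = Nat.card k - 1 := by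
    rw [Nat.card_units]
  have h2 : 3 ∣ Nat.card kˣ := by
    rw [h1]
    exact (Nat.modEq_iff_dvd' (by
      have : 0 < Nat.card k := Nat.card_pos
      omega)).1 h.symm
  obtain ⟨g, hg⟩ := exists_prime_orderOf_dvd_card' 3 h2
  have h3 : g ^ 3 = 1 := by rw [← hg]; exact pow_orderOf_eq_one g
  have h4 : g ≠ 1 := by
    rintro rfl
    rw [orderOf_one] at hg
    omega
  refine ⟨-(g : k), ?_⟩
  have h5 : ((g : k) - 1) * ((g : k) ^ 2 + g + 1) = 0 := by
    have h6 : (g : k) ^ 3 = 1 := by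
      have := congrArg Units.val h3
      simpa using this
    linear_combination h6
  rcases mul_eq_zero.1 h5 with h6 | h6
  · exfalso
    apply h4
    apply Units.ext
    rw [Units.val_one]
    linear_combination h6
  · linear_combination h6

theorem three_ne' (hp3 : p ≠ 3) : (3 : Ω) ≠ 0 := by
  intro h0
  have h1 : ((3 : ℕ) : Ω) = 0 := by exact_mod_cast h0
  rw [CharP.cast_eq_zero_iff Ω p] at h1
  exact hp3 ((Nat.prime_dvd_prime_iff_eq (Fact.out : p.Prime) Nat.prime_three).1 h1)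

/-- `Nw = 1` modulo `3`: a residue which is a root of `X² - X + 1` depends only on the place -/
theorem same_of_ker (q : ℕ) [Fact q.Prime] [CharP Ω q] {w : 𝓞 F →+* Ω} {ψ : Fin (Module.finrank F K) → (𝓞 K →+* Ω)}
    (hψ : RelFam w ψ) {a b : 𝓞 K} (i j : GI ψ a b)
    (hi : TR ψ a b i ^ 2 - TR ψ a b i + 1 = 0) (hw : Nat.card (𝓞 F ⧸ RingHom.ker w) % 3 = 1)
    (heq : RingHom.ker (ψ j.1) = RingHom.ker (ψ i.1)) : TR ψ a b j = TR ψ a b i := by
  obtain ⟨hne, hmax, hfin, hchar, -, -⟩ :=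
    H52FD.prime_data (p := q) (RingHom.ker w) (RingHom.ker_isPrime w) (H52FD.p_mem_ker w)
  letI : Field (𝓞 F ⧸ RingHom.ker w) := Ideal.Quotient.field _
  obtain ⟨z, hz⟩ := exists_sixth (𝓞 F ⧸ RingHom.ker w) hw
  obtain ⟨z, rfl⟩ := Ideal.Quotient.mk_surjective z
  have hz' : w z ^ 2 - w z + 1 = 0 := by
    have h1 : (Ideal.Quotient.mk (RingHom.ker w)) (z ^ 2 - z + 1) = 0 := by
      rw [map_add, map_sub, map_pow, map_one]
      exact hz
    rw [Ideal.Quotient.eq_zero_iff_mem, RingHom.mem_ker, map_add, map_sub, map_pow, map_one] at h1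
    exact h1
  -- `T i = w y`
  obtain ⟨y, hy⟩ : ∃ y : 𝓞 F, w y = TR ψ a b i := by
    have h1 : (TR ψ a b i - w z) * (TR ψ a b i - (1 - w z)) = 0 := by
      linear_combination hi - hz'
    rcases mul_eq_zero.1 h1 with h2 | h2
    · exact ⟨z, by linear_combination -h2⟩
    · exact ⟨1 - z, by rw [map_sub, map_one]; linear_combination -h2⟩
  have hlies : ∀ k, ψ k (algebraMap (𝓞 F) (𝓞 K) y) = w y := fun k => by
    rw [← hψ.lies k]
    rfl
  have h5 : a * algebraMap (𝓞 F) (𝓞 K) y + b ∈ RingHom.ker (ψ i.1) := by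
    rw [RingHom.mem_ker, map_add, map_mul, hlies, hy]
    unfold TR
    have := i.2.1
    field_simp
    ring
  rw [← heq, RingHom.mem_ker, map_add, map_mul, hlies, hy] at h5
  have h7 : ψ j.1 a ≠ 0 := j.2.1
  show -(ψ j.1 b) / ψ j.1 a = TR ψ a b i
  rw [div_eq_iff h7]
  linear_combination -h5

/-- (2) at the places: if the number of the good members is not divisible by three -/
theorem place_root {w : 𝓞 F →+* Ω} {ψ : Fin (Module.finrank F K) → (𝓞 K →+* Ω)} (hψ : RelFam w ψ)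
    (hp3 : p ≠ 3) {a b c : 𝓞 K} (h : FSol K p a b c) (hcp : CopAt K p a b c)
    (hS : SymP ((nfR F K a b).map w)) (h3 : ¬ 3 ∣ Nat.card (GI ψ a b)) :
    ∃ P : Ideal (𝓞 K), P.IsPrime ∧ P.under (𝓞 F) = RingHom.ker w ∧ a ∉ P ∧ b ∉ P ∧ c ∉ P ∧
      a ^ 2 + a * b + b ^ 2 ∈ P ∧ Nat.card (𝓞 K ⧸ P) % 3 = 1 ∧
      (Nat.card (𝓞 F ⧸ RingHom.ker w) % 3 = 1 → ∃ P' : Ideal (𝓞 K), P'.IsPrime ∧ P' ≠ P ∧
        P'.under (𝓞 F) = RingHom.ker w ∧ a ∉ P' ∧ b ∉ P' ∧ c ∉ P' ∧ a ^ 2 + a * b + b ^ 2 ∈ P') := by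
  obtain ⟨i, j, hi, hj⟩ := rel_root hψ h hcp hS h3
  have hj' : TR ψ a b j ^ 2 - TR ψ a b j + 1 = 0 := by
    rw [hj]
    linear_combination hi
  obtain ⟨a1, a2, a3⟩ := (good_iff h i.1).1 i.2
  obtain ⟨b1, b2, b3⟩ := (good_iff h j.1).1 j.2
  refine ⟨RingHom.ker (ψ i.1), RingHom.ker_isPrime _, under_ker hψ i.1, a1, a2, a3,
    cubic_of_root i hi, resid_mod hp3 (ψ i.1) a b i.2.1 hi, fun hw => ?_⟩
  refine ⟨RingHom.ker (ψ j.1), RingHom.ker_isPrime _, fun heq => ?_, under_ker hψ j.1, b1, b2, b3,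
    cubic_of_root j hj'⟩
  have h6 := same_of_ker p hψ i j hi hw heq
  rw [hj] at h6
  have h7 : 2 * TR ψ a b i = 1 := by linear_combination -h6
  apply three_ne' (Ω := Ω) (p := p) hp3
  linear_combination 4 * hi - (2 * TR ψ a b i - 1) * h7

/-- (3) a place with more than half of the good members -/
theorem place_big {w : 𝓞 F →+* Ω} {ψ : Fin (Module.finrank F K) → (𝓞 K →+* Ω)} (hψ : RelFam w ψ)
    (hp5 : 5 ≤ p) {a b c : 𝓞 K} (h : FSol K p a b c) (hcp : CopAt K p a b c)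
    (hS : SymP ((nfR F K a b).map w)) (P : Ideal (𝓞 K)) (ha : a ∉ P) (hb : b ∉ P) (hc : c ∉ P)
    (hbig : Nat.card (GI ψ a b) < 2 * Nat.card {i // RingHom.ker (ψ i) = P}) :
    Nat.card (𝓞 F ⧸ RingHom.ker w) % 3 = 2 ∧ Even (P.inertiaDeg (𝓞 F)) ∧
      a ^ 2 + a * b + b ^ 2 ∈ P := by
  classical
  have hp3 : p ≠ 3 := by omega
  have hpodd : Odd p := by
    rcases (Fact.out : p.Prime).eq_two_or_odd' with h | h
    · omega
    · exact h
  have hT := s3_fam hψ h hcp hS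
  have hS3 : H52FD.S3 (TR ψ a b) := by
    obtain ⟨σ, hσ⟩ := hT.inv
    obtain ⟨τ, hτ⟩ := hT.sub'
    exact ⟨⟨σ, hσ⟩, τ, hτ⟩
  set A : Finset (GI ψ a b) := Finset.univ.filter (fun i => RingHom.ker (ψ i.1) = P) with hA
  have hAcard : Nat.card {i // RingHom.ker (ψ i) = P} = A.card := by
    rw [hA, ← Fintype.card_subtype, ← Nat.card_eq_fintype_card]
    refine Nat.card_congr ⟨fun i => ⟨⟨i.1, (good_iff h i.1).2 ?_⟩, i.2⟩, fun i => ⟨i.1.1, i.2⟩,
      fun i => rfl, fun i => rfl⟩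
    rw [i.2]
    exact ⟨ha, hb, hc⟩
  rw [Nat.card_eq_fintype_card, hAcard] at hbig
  have hfr : ∀ i ∈ A, ∀ j ∈ A, ∃ k : ℕ, TR ψ a b j = TR ψ a b i ^ p ^ k := by
    intro i hi j hj
    rw [hA, Finset.mem_filter] at hi hj
    obtain ⟨k, hk⟩ := H52FD.frob_conj (p := p) (ψ i.1) (ψ j.1) (hi.2.trans hj.2.symm)
    refine ⟨k, ?_⟩
    unfold TR
    rw [neg_div, neg_div, (hpodd.pow).neg_pow, div_pow, hk, hk]
  obtain ⟨σ, hσ⟩ := hT.sub'
  obtain ⟨i, hi, hσi⟩ := H52FD.exists_pair σ A hbig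
  obtain ⟨hroot, -, -⟩ := H52FD.fam_core hp5 hS3 A hbig hfr hi
  have hiP : RingHom.ker (ψ i.1) = P := by
    rw [hA, Finset.mem_filter] at hi
    exact hi.2
  have hjP : RingHom.ker (ψ (σ i).1) = P := by
    rw [hA, Finset.mem_filter] at hσi
    exact hσi.2
  have hmod := resid_mod hp3 (ψ i.1) a b i.2.1 hroot
  obtain ⟨hq, -⟩ := card_pow (F := F) (p := p) (RingHom.ker (ψ i.1)) (RingHom.ker_isPrime _)
    (H52FD.p_mem_ker _)
  rw [under_ker hψ i.1] at hq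
  have h1 : Nat.card (𝓞 F ⧸ RingHom.ker w) % 3 ≠ 1 := by
    intro hw
    have h6 := same_of_ker p hψ i (σ i) hroot hw (hjP.trans hiP.symm)
    rw [hσ] at h6
    have h7 : 2 * TR ψ a b i = 1 := by linear_combination -h6
    apply three_ne' (Ω := Ω) (p := p) hp3
    linear_combination 4 * hroot - (2 * TR ψ a b i - 1) * h7
  have h0 : Nat.card (𝓞 F ⧸ RingHom.ker w) % 3 ≠ 0 := by
    intro hw
    have hpos : (RingHom.ker (ψ i.1)).inertiaDeg (𝓞 F) ≠ 0 := by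
      intro h0
      rw [h0, pow_zero] at hq
      have : (RingHom.ker (ψ i.1)).IsPrime := RingHom.ker_isPrime _
      have hnt : Nontrivial (𝓞 K ⧸ RingHom.ker (ψ i.1)) :=
        Ideal.Quotient.nontrivial_iff.2 (RingHom.ker_isPrime (ψ i.1)).ne_top
      obtain ⟨-, -, hfin, -, -, -⟩ := H52FD.prime_data (p := p) (RingHom.ker (ψ i.1))
        (RingHom.ker_isPrime _) (H52FD.p_mem_ker _)
      have := Finite.one_lt_card (α := 𝓞 K ⧸ RingHom.ker (ψ i.1))
      omega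
    rw [hq, Nat.pow_mod, hw, zero_pow hpos] at hmod
    omega
  have h2 : Nat.card (𝓞 F ⧸ RingHom.ker w) % 3 = 2 := by omega
  refine ⟨h2, ?_, ?_⟩
  · rw [← hiP]
    by_contra hodd
    rw [Nat.not_even_iff_odd] at hodd
    obtain ⟨k, hk⟩ := hodd
    rw [hq, Nat.pow_mod, h2, hk, pow_succ, pow_mul] at hmod
    have h3 : ((2 ^ 2) ^ k * 2) % 3 = 2 := by
      rw [Nat.mul_mod, Nat.pow_mod]
      norm_num
    omega
  · rw [← hiP]
    exact cubic_of_root i hroot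

end

end H55AB
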