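import Pool.Agent.H55.AB.Fam
import Pool.Agent.H55.AB.RelDeg
import Pool.Agent.H3.AB.Scale
import Pool.Agent.H9.FC.LocCM
import Pool.Agent.H52.FD.Place

/-!
# FD version 2, module RelSym: the relative consequences of the `S_3`-symmetry

`F ⊆ K` number fields, `w : 𝓞 F → Ω` with kernel a prime of `F` above `p`, `ψ_i : 𝓞 K → Ω`,
`i < [K:F]`, the reductions of the `F`-embeddings of `K` over `w`.  `SymP Q`: the multiplicities of the
roots `≠ 0, 1` of `Q` are invariant under `x ↦ 1/x`, `x ↦ 1 - x`.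
-/

open NumberField Polynomial IsDedekindDomain H9FC H9AB H85FD

namespace H55AB

/-- the root multiplicities outside `0, 1` are invariant under `1/x` and `1 - x` -/
def SymP {Ω : Type*} [Field Ω] (Q : Polynomial Ω) : Prop :=
  ∀ x : Ω, x ≠ 0 → x ≠ 1 →
    rootMultiplicity x⁻¹ Q = rootMultiplicity x Q ∧ rootMultiplicity (1 - x) Q = rootMultiplicity x Q

/-- the family of the reductions of the `F`-embeddings of `K` over `w` -/
structure RelFam {F : Type*} [Field F] [NumberField F] {K : Type*} [Field K] [NumberField K]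
    [Algebra F K] {Ω : Type*} [Field Ω] (w : 𝓞 F →+* Ω)
    (ψ : Fin (Module.finrank F K) → (𝓞 K →+* Ω)) : Prop where
  lies : ∀ i, (ψ i).comp (algebraMap (𝓞 F) (𝓞 K)) = w
  form : ∀ x y : 𝓞 K, (nfR F K x y).map w = ∏ i, (C (ψ i x) + X * C (ψ i y))

theorem exists_rel (F : Type*) [Field F] [NumberField F] (K : Type*) [Field K] [NumberField K]
    [Algebra F K] (Ω : Type*) [Field Ω] [IsAlgClosed Ω] (w : 𝓞 F →+* Ω) :
    ∃ ψ : Fin (Module.finrank F K) → (𝓞 K →+* Ω), RelFam w ψ := by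
  obtain ⟨ψ, h1, h2⟩ := exists_relFam F K Ω w
  exact ⟨ψ, h1, h2⟩

section

variable {F : Type*} [Field F] [NumberField F] {K : Type*} [Field K] [NumberField K] [Algebra F K]
  {p : ℕ} [Fact p.Prime] {Ω : Type*} [Field Ω] [CharP Ω p] {w : 𝓞 F →+* Ω}
  {ψ : Fin (Module.finrank F K) → (𝓞 K →+* Ω)} {a b c : 𝓞 K}

/-- the index set of the good members -/
abbrev GI (ψ : Fin (Module.finrank F K) → (𝓞 K →+* Ω)) (a b : 𝓞 K) : Type :=
  {i // Good (fun i => ψ i a) (fun i => ψ i b) i}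

/-- the residues -/
noncomputable def TR (ψ : Fin (Module.finrank F K) → (𝓞 K →+* Ω)) (a b : 𝓞 K) (i : GI ψ a b) : Ω :=
  - ψ i.1 b / ψ i.1 a

theorem good_iff (h : FSol K p a b c) (i : Fin (Module.finrank F K)) :
    Good (fun i => ψ i a) (fun i => ψ i b) i ↔
      a ∉ RingHom.ker (ψ i) ∧ b ∉ RingHom.ker (ψ i) ∧ c ∉ RingHom.ker (ψ i) := by
  have h1 := fsol_hom h (ψ i)
  simp only [RingHom.mem_ker]
  constructor
  · rintro ⟨h2, h3, h4⟩
    refine ⟨h2, h3, fun h5 => h4 ?_⟩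
    rw [h5, add_zero] at h1
    exact h1
  · rintro ⟨h2, h3, h4⟩
    refine ⟨h2, h3, fun h5 => h4 ?_⟩
    have h6 : ψ i a + ψ i b = 0 := h5
    rw [h6, zero_add] at h1
    exact h1

open Classical in
/-- the residues form an `S_3`-stable family -/
theorem s3_fam (hψ : RelFam w ψ) (h : FSol K p a b c) (hcp : CopAt K p a b c)
    (hS : SymP ((nfR F K a b).map w)) : S3St (TR ψ a b) := by
  rw [hψ.form a b] at hS
  refine s3_of_mult (fun i => ψ i a) (fun i => ψ i b) (fun i => ?_) (fun x h0 h1 => (hS x h0 h1).1)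
    (fun x h0 h1 => (hS x h0 h1).2)
  by_contra hcon
  push Not at hcon
  exact (cop_hom h hcp (ψ i)).1 hcon

/-- `T = -1` only for Wieferich primes -/
theorem wief_of_neg_one (hp2 : p ≠ 2) (hd : Module.finrank ℚ K < p) (h : FSol K p a b c)
    (i : GI ψ a b) (hi : TR ψ a b i = -1) : p ^ 2 ∣ 2 ^ (p - 1) - 1 := by
  by_contra hW
  have ha : ψ i.1 a ≠ 0 := i.2.1
  refine cm_one hp2 hd h hW (ψ i.1) ha ?_
  unfold TR at hi
  rw [div_eq_iff ha] at hi
  linear_combination hi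

open Classical in
/-- (1) an odd number of good members -/
theorem rel_wief (hψ : RelFam w ψ) (hp2 : p ≠ 2) (hd : Module.finrank ℚ K < p)
    (h : FSol K p a b c) (hcp : CopAt K p a b c) (hS : SymP ((nfR F K a b).map w))
    (hodd : Odd (Nat.card (GI ψ a b))) : p ^ 2 ∣ 2 ^ (p - 1) - 1 := by
  have hT := s3_fam hψ h hcp hS
  rw [Nat.card_eq_fintype_card] at hodd
  obtain ⟨v, hv⟩ := hT.exists_neg_one hodd
  exact wief_of_neg_one hp2 hd h v hv

/-- a root of `X² - X + 1` -/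
theorem cubic_of_root (i : GI ψ a b) (hi : TR ψ a b i ^ 2 - TR ψ a b i + 1 = 0) :
    a ^ 2 + a * b + b ^ 2 ∈ RingHom.ker (ψ i.1) := by
  have ha : ψ i.1 a ≠ 0 := i.2.1
  rw [RingHom.mem_ker, map_add, map_add, map_mul, map_pow, map_pow]
  unfold TR at hi
  field_simp at hi
  linear_combination hi

open Classical in
/-- (2) the number of good members is not divisible by three -/
theorem rel_root (hψ : RelFam w ψ) (h : FSol K p a b c) (hcp : CopAt K p a b c)
    (hS : SymP ((nfR F K a b).map w)) (h3 : ¬ 3 ∣ Nat.card (GI ψ a b)) :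
    ∃ i j : GI ψ a b, TR ψ a b i ^ 2 - TR ψ a b i + 1 = 0 ∧ TR ψ a b j = 1 - TR ψ a b i := by
  have hT := s3_fam hψ h hcp hS
  rw [Nat.card_eq_fintype_card] at h3
  obtain ⟨v, hv⟩ := hT.exists_root h3
  obtain ⟨σ, hσ⟩ := hT.sub'
  exact ⟨v, σ v, hv, hσ v⟩

end

end H55AB
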